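import Pool.Agent.Lib.MP_7685df_co.Data

set_option autoImplicit false
set_option linter.unusedSectionVars false

namespace Pool.Agent.Lib.MP_7685df_co

open Finset

variable {n r : ℕ}

theorem deg_real (hr : 0 < r) (a D : ℕ) (h : r ^ 2 * a ≤ n.choose (r - 1) * (r + D)) :
    r * (n - (r - 1)) * a ≤ n.choose r * (r + D) := by
  have e := Nat.choose_succ_right_eq n (r - 1)
  rw [show r - 1 + 1 = r by omega] at e
  apply Nat.le_of_mul_le_mul_left _ hr
  calc r * (r * (n - (r - 1)) * a) = (r ^ 2 * a) * (n - (r - 1)) := by ring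
    _ ≤ n.choose (r - 1) * (r + D) * (n - (r - 1)) := Nat.mul_le_mul_right _ h
    _ = (n.choose (r - 1) * (n - (r - 1))) * (r + D) := by ring
    _ = r * (n.choose r * (r + D)) := by rw [← e]; ring

theorem card_SM (n θ : ℕ) :
    ((SM n θ).card : ℝ) ≤ 2 * Real.exp (n / 16 + θ * Real.log 16) := by
  have e1 := card_LE (univ : Finset (Fin n)) θ (1 / 16) (by norm_num) (by norm_num)
  rw [card_univ, Fintype.card_fin, one_div, Real.log_inv] at e1
  have e2 : SM n θ ⊆ LE univ θ ∪ (LE univ θ).image compl := by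
    intro F hF
    rcases (mem_filter.mp hF).2 with h | h
    · exact mem_union_left _ (by simp [LE, h])
    · exact mem_union_right _ (mem_image.mpr ⟨Fᶜ, by simp only [LE, mem_filter]; simp [h], by simp⟩)
  have e3 := (card_le_card e2).trans (card_union_le _ _)
  have e4 : ((LE (univ : Finset (Fin n)) θ).image compl).card ≤ _ := card_image_le
  have e5 : ((SM n θ).card : ℝ) ≤ 2 * (LE (univ : Finset (Fin n)) θ).card := by
    exact_mod_cast (by omega : (SM n θ).card ≤ 2 * (LE (univ : Finset (Fin n)) θ).card)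
  refine e5.trans (mul_le_mul_of_nonneg_left (e1.trans (le_of_eq ?_)) (by norm_num))
  congr 1; ring

theorem log16 : Real.log 16 = 4 * Real.log 2 := by
  rw [show (16 : ℝ) = 2 ^ 4 by norm_num, Real.log_pow]; norm_num

/-- The overhead rate. -/
noncomputable def kap (n : ℕ) : ℝ := 6 * (n + 1) ^ 2 / n ^ 3 + 90000 * Real.log n / n.sqrt

theorem overhead (hn : 1000 ≤ n) (h1 : 2 * n ≤ 5 * r) (h2 : 5 * r ≤ 3 * n)
    (hN : 2 ^ n ≤ 2 * n * (n + 1) * n.choose r)
    (hsm : Real.exp (n / 10 + 3) * (2 * n ^ 3 * (n + 1)) ≤ 2 ^ n) (b : ℝ) (hb0 : 0 ≤ b)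
    (Bad : Finset (Finset (Fin n) → ℕ)) (hBad : ∀ ρ ∈ Bad, IsRk ρ ∧ ρ univ = r)
    (hb : ∀ A Z, Ctx r (n / 100 + 1) A Z → ∀ MM, MM ⊆ Bad → (∀ ρ ∈ MM, Cls r A Z ρ) →
      (MM.card : ℝ) ≤ b) :
    (Bad.card : ℝ) ≤ Real.exp (kap n * (n.choose r / n)) * b := by
  have hw1 : 1 ≤ n.sqrt := Nat.le_sqrt.mpr (by omega)
  have hw2 : n.sqrt * n.sqrt ≤ n := Nat.sqrt_le n
  have hwn : n.sqrt ≤ n := Nat.sqrt_le_self n
  set w := n.sqrt with hw
  set N := n.choose r with hNdef
  have hnR : (1000 : ℝ) ≤ n := by exact_mod_cast hn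
  have hwR : (1 : ℝ) ≤ w := by exact_mod_cast hw1
  have hwnR : (w : ℝ) ≤ n := by exact_mod_cast hwn
  have hNR : (2 : ℝ) ^ n ≤ 2 * n * (n + 1) * N := by exact_mod_cast hN
  have hN0 : (0 : ℝ) ≤ N := by positivity
  refine (sum_info (by omega) (n * w) (n / 100 + 1) (by positivity) (by omega)
    (6000 * N / (n * w)) b (1 / n ^ 5) (by positivity) ?_ hb0 ?_ Bad hBad hb).trans ?_
  · rw [div_le_one (by positivity)]
    exact one_le_pow₀ (by linarith)
  · intro s₁ s₂ a a1 a2 a3
    have a4 := deg_real (by omega) a _ a3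
    rw [← hNdef] at a1 a4
    have b1 : s₂ * n ≤ 100 * a := by
      have : n ≤ 100 * (n / 100 + 1) := by omega
      nlinarith
    have b2 : 4 * n ^ 2 * a ≤ 50 * N * (n * w) := by
      have c1 : 2 * n ≤ 5 * (n - (r - 1)) := by omega
      have c2 : (2 * n) * (2 * n) ≤ (5 * r) * (5 * (n - (r - 1))) := Nat.mul_le_mul h1 c1
      have c3 : r + n * w ≤ 2 * (n * w) := by nlinarith
      calc 4 * n ^ 2 * a = (2 * n) * (2 * n) * a := by ring
        _ ≤ (5 * r) * (5 * (n - (r - 1))) * a := Nat.mul_le_mul_right _ c2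
        _ = 25 * (r * (n - (r - 1)) * a) := by ring
        _ ≤ 25 * (N * (r + n * w)) := Nat.mul_le_mul_left _ a4
        _ ≤ 25 * (N * (2 * (n * w))) := Nat.mul_le_mul_left _ (Nat.mul_le_mul_left _ c3)
        _ = 50 * N * (n * w) := by ring
    have b3 : s₂ * (n * w) ≤ 1250 * N := by
      apply Nat.le_of_mul_le_mul_left _ (by positivity : 0 < 4 * n ^ 2)
      calc 4 * n ^ 2 * (s₂ * (n * w)) = 4 * n ^ 2 * (s₂ * n) * w := by ring
        _ ≤ 4 * n ^ 2 * (100 * a) * w := by gcongr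
        _ = 100 * (4 * n ^ 2 * a) * w := by ring
        _ ≤ 100 * (50 * N * (n * w)) * w := by gcongr
        _ = 5000 * N * n * (w * w) := by ring
        _ ≤ 5000 * N * n * n := by gcongr
        _ = 4 * n ^ 2 * (1250 * N) := by ring
    have b4 : ((SM n (n / 100 + 1)).card : ℝ) * (n * w) ≤ 2 * N := by
      have c1 := card_SM n (n / 100 + 1)
      have c2 : Real.exp (n / 16 + ((n / 100 + 1 : ℕ) : ℝ) * Real.log 16) ≤ Real.exp (n / 10 + 3) := by
        apply Real.exp_le_exp.mpr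
        have d1 : ((n / 100 + 1 : ℕ) : ℝ) ≤ n / 100 + 1 := by
          push_cast
          have := Nat.cast_div_le (α := ℝ) (m := n) (n := 100)
          push_cast at this
          linarith
        have d2 := Real.log_two_lt_d9
        have d3 : (0 : ℝ) ≤ ((n / 100 + 1 : ℕ) : ℝ) := by positivity
        rw [log16]
        nlinarith
      have c3 : Real.exp (n / 10 + 3) * n ^ 2 ≤ N := by
        apply le_of_mul_le_mul_left _ (by positivity : (0 : ℝ) < 2 * n * (n + 1))
        calc 2 * n * (n + 1) * (Real.exp (n / 10 + 3) * n ^ 2)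
            = Real.exp (n / 10 + 3) * (2 * n ^ 3 * (n + 1)) := by ring
          _ ≤ _ := hsm.trans hNR
      calc ((SM n (n / 100 + 1)).card : ℝ) * (n * w) ≤ (2 * Real.exp (n / 10 + 3)) * (n * n) := by
            apply mul_le_mul (c1.trans (by linarith)) (by gcongr) (by positivity) (by positivity)
        _ = 2 * (Real.exp (n / 10 + 3) * n ^ 2) := by ring
        _ ≤ 2 * N := by linarith
    rw [le_div_iff₀ (by positivity)]
    have a1' : (s₁ : ℝ) * (n * w) ≤ N := by exact_mod_cast a1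
    have b3' : (s₂ : ℝ) * (n * w) ≤ 1250 * N := by exact_mod_cast b3
    push_cast
    nlinarith
  · apply mul_le_mul_of_nonneg_right _ hb0
    apply Real.exp_le_exp.mpr
    rw [one_div, Real.log_inv, Real.log_pow]
    have c1 : ((n : ℝ) ^ 5)⁻¹ * (2 ^ n * (n + 1)) ≤ ((n : ℝ) ^ 5)⁻¹ * (2 * n * (n + 1) * N * (n + 1)) := by
      gcongr
    have c2 : kap n * (N / n) = 3 * (((n : ℝ) ^ 5)⁻¹ * (2 * n * (n + 1) * N * (n + 1))
        - 6000 * N / (n * w) * -((5 : ℕ) * Real.log n)) := by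
      unfold kap
      rw [← hw]
      field_simp
      push_cast
      ring
    rw [c2]
    linarith

theorem exp_le_two_pow (a m : ℕ) (hm : 0 < m) :
    Real.exp (Real.log 2 * (a / m) - 1) ≤ 2 ^ (a / m) := by
  have e1 : (a : ℝ) / m ≤ (a / m : ℕ) + 1 := by
    rw [div_le_iff₀ (by positivity)]
    have := Nat.lt_div_mul_add (a := a) hm
    have h2 : (a : ℝ) ≤ (a / m : ℕ) * m + m := by exact_mod_cast this.le
    linarith
  rw [← Real.exp_log (by norm_num : (0 : ℝ) < 2), ← Real.exp_nat_mul, Real.log_exp]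
  apply Real.exp_le_exp.mpr
  have d2 := Real.log_two_lt_d9
  have d3 := Real.log_two_gt_d9
  nlinarith

theorem bad1_real (hn : 1000 ≤ n) (h1 : 2 * n ≤ 5 * r) (h2 : 5 * r ≤ 3 * n)
    (hN : 100 ≤ n.choose r) {A : Finset (Finset (Fin n))} {Z : Finset (Finset (Fin n) × ℕ)}
    (c : Ctx r (n / 100 + 1) A Z) (MM : Finset (Finset (Fin n) → ℕ))
    (hM : ∀ ρ ∈ MM, Cls r A Z ρ ∧ (∀ F : Finset (Fin n), F.card ≤ 40 → ρ F = F.card) ∧
      (∀ F : Finset (Fin n), Fᶜ.card ≤ 40 → ρ F = r) ∧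
      3 * n.choose r ≤ 20 * ((VV n r).filter (fun X => ρ X < r)).card) :
    (MM.card : ℝ) ≤ (SS n r).card * Real.exp (1 - (n.choose r / n) / 30) := by
  set N := n.choose r with hNdef
  have a4 := deg_real (by omega) _ _ (card_of_deg (by omega) A c.card _ c.deg)
  rw [← hNdef] at a4
  have b2 : n * A.card ≤ 3 * N := by
    have c1 : 2 * n ≤ 5 * (n - (r - 1)) := by omega
    have c3 : 5 * (r + (n / 100 + 1)) ≤ 6 * r := by omega
    apply Nat.le_of_mul_le_mul_left _ (by omega : 0 < 2 * r)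
    calc 2 * r * (n * A.card) = r * (2 * n) * A.card := by ring
      _ ≤ r * (5 * (n - (r - 1))) * A.card := by gcongr
      _ = 5 * (r * (n - (r - 1)) * A.card) := by ring
      _ ≤ 5 * (N * (r + (n / 100 + 1))) := by gcongr
      _ = N * (5 * (r + (n / 100 + 1))) := by ring
      _ ≤ N * (6 * r) := by gcongr
      _ = 2 * r * (3 * N) := by ring
  have b3 : 1000 * A.card ≤ n * A.card := Nat.mul_le_mul_right _ hn
  have b4 : 20 * n * (N / (20 * n)) ≤ N := Nat.mul_div_le _ _
  have := bad1_fixed (by omega) c 40 (3 * N / 20) (N / (20 * n)) (by norm_num) MM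
    (fun ρ hρ => ⟨(hM ρ hρ).1, (hM ρ hρ).2.1, (hM ρ hρ).2.2.1, by
      have := (hM ρ hρ).2.2.2; omega⟩)
    (by
      have : 40 * (n * (N / (20 * n))) = 2 * (20 * n * (N / (20 * n))) := by ring
      omega)
  have e1 : (MM.card : ℝ) * 2 ^ (N / (20 * n)) ≤ (SS n r).card := by exact_mod_cast this
  have e2 := exp_le_two_pow N (20 * n) (by omega)
  have e3 : Real.exp ((N / n) / 30 - 1) ≤ 2 ^ (N / (20 * n)) := by
    refine le_trans (Real.exp_le_exp.mpr ?_) e2
    have d3 := Real.log_two_gt_d9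
    have d4 : (0 : ℝ) ≤ N / n := by positivity
    have d5 : (N : ℝ) / ((20 * n : ℕ) : ℝ) = (N / n) / 20 := by push_cast; ring
    rw [d5]
    nlinarith
  rw [show 1 - (N / n : ℝ) / 30 = -((N / n) / 30 - 1) by ring, Real.exp_neg, ← div_eq_mul_inv,
    le_div_iff₀ (Real.exp_pos _)]
  exact le_trans (mul_le_mul_of_nonneg_left e3 (by positivity)) e1

theorem choose_le_three_pow (hn : 1000 ≤ n) (h1 : 2 * n ≤ 5 * r) (h2 : r ≤ n) (j : ℕ) (hj : j ≤ 40) :
    n.choose r ≤ 3 ^ j * (n - j).choose (r - j) := by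
  induction j with
  | zero => simp
  | succ j ih =>
    refine (ih (by omega)).trans ?_
    have e := Nat.add_one_mul_choose_eq (n - (j + 1)) (r - (j + 1))
    rw [show n - (j + 1) + 1 = n - j by omega, show r - (j + 1) + 1 = r - j by omega] at e
    rw [pow_succ, mul_assoc]
    apply Nat.mul_le_mul_left
    apply Nat.le_of_mul_le_mul_right _ (by omega : 0 < r - j)
    rw [← e]
    have : n - j ≤ 3 * (r - j) := by omega
    nlinarith

theorem card_BB (C : Finset (Fin n)) (hC : C.card ≤ r) :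
    (n - C.card).choose (r - C.card) ≤ (BB r C).card := by
  have e1 : (powersetCard (r - C.card) Cᶜ).card = (n - C.card).choose (r - C.card) := by
    rw [card_powersetCard, card_compl, Fintype.card_fin]
  rw [← e1]
  apply card_le_card_of_injOn (fun Y => Y ∪ C)
  · intro Y hY
    obtain ⟨h1, h2⟩ := mem_powersetCard.mp hY
    simp only [BB, coe_filter, mem_VV, Set.mem_ofPred_eq]
    refine ⟨?_, subset_union_right⟩
    rw [card_union_of_disjoint (disjoint_left.mpr (fun a ha => mem_compl.mp (h1 ha)))]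
    omega
  · intro Y hY Y' hY' e
    have h1 := (mem_powersetCard.mp hY).1
    have h2 := (mem_powersetCard.mp hY').1
    simp only at e
    rw [← union_sdiff_cancel_right (disjoint_left.mpr (fun a ha => mem_compl.mp (h1 ha))), e,
      union_sdiff_cancel_right (disjoint_left.mpr (fun a ha => mem_compl.mp (h2 ha)))]

theorem bad2_real (hn : 1000 ≤ n) (h1 : 2 * n ≤ 5 * r) (h2 : 5 * r ≤ 3 * n)
    {A : Finset (Finset (Fin n))} {Z : Finset (Finset (Fin n) × ℕ)}
    (c : Ctx r (n / 100 + 1) A Z) (C : Finset (Fin n)) (hC : C.card ≤ 40) (hn' : 4000 ≤ n)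
    (MM : Finset (Finset (Fin n) → ℕ))
    (hM : ∀ ρ ∈ MM, Cls r A Z ρ ∧ ρ C < C.card ∧ ∀ a ∈ C, ρ (C.erase a) = ρ C) :
    (MM.card : ℝ) ≤ (SS n r).card * (2 * Real.exp (1 - (n.choose r / n) / (100 * 3 ^ 40))) := by
  rcases C.eq_empty_or_nonempty with rfl | ⟨c₀, hc₀⟩
  · have : MM = ∅ := by
      apply eq_empty_of_forall_notMem
      intro ρ hρ
      simpa using (hM ρ hρ).2.1
    rw [this]; simp; positivity
  set N := n.choose r with hNdef
  set b := (BB r C).card with hb
  set k := r + 1 - C.card with hk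
  have hNb : N ≤ 3 ^ 40 * b := by
    refine (choose_le_three_pow hn h1 (by omega) C.card hC).trans ?_
    exact Nat.mul_le_mul (Nat.pow_le_pow_right (by norm_num) hC) (card_BB C (by omega))
  have hk0 : 0 < k := by omega
  have a1 := bad2_fixed (by omega) c hc₀ (by omega) (49 * b / (50 * k)) (b / (50 * n)) (b / n) MM hM
    (by
      have e1 : 50 * k * (49 * b / (50 * k)) ≤ 49 * b := Nat.mul_div_le _ _
      have e2 : 50 * n * (b / (50 * n)) ≤ b := Nat.mul_div_le _ _
      rw [← hk, ← hb]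
      nlinarith)
    (Nat.mul_div_le _ _)
  have a2 := card_PP c hc₀
  have a3 := card_GT (PP A C c₀) (49 * b / (50 * k))
  rw [← hk, ← hb] at a2
  set p := (PP A C c₀).card
  set W := ((PP A C c₀).powerset.filter (fun Q => 49 * b / (50 * k) < Q.card)).card
  set t := 49 * b / (50 * k) with ht
  have hnR : (4000 : ℝ) ≤ n := by exact_mod_cast hn'
  have hkR : (0 : ℝ) < k := by exact_mod_cast hk0
  have hq : (N / n : ℝ) / 3 ^ 40 ≤ b / n := by
    have : (N : ℝ) ≤ 3 ^ 40 * b := by exact_mod_cast hNb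
    rw [div_div, div_le_div_iff₀ (by positivity) (by positivity)]
    nlinarith
  have d2 := Real.log_two_lt_d9
  have d3 := Real.log_two_gt_d9
  have hbn : (0 : ℝ) ≤ b / n := by positivity
  have p1 : (p : ℝ) ≤ 103 / 100 * (b / k) := by
    have e1 : 100 * (k + (n / 100 + 1)) ≤ 103 * k := by omega
    have e2 : 100 * (k * p) ≤ 103 * b := by
      apply Nat.le_of_mul_le_mul_left _ hk0
      calc k * (100 * (k * p)) = 100 * (k ^ 2 * p) := by ring
        _ ≤ 100 * (b * (k + (n / 100 + 1))) := by gcongr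
        _ = b * (100 * (k + (n / 100 + 1))) := by ring
        _ ≤ b * (103 * k) := by gcongr
        _ = k * (103 * b) := by ring
    have e3 : (100 : ℝ) * (k * p) ≤ 103 * b := by exact_mod_cast e2
    rw [← mul_div_assoc, le_div_iff₀ hkR]
    linarith
  have p2 : 49 / 50 * (b / k : ℝ) ≤ t + 1 := by
    have e1 := Nat.lt_div_mul_add (a := 49 * b) (by omega : 0 < 50 * k)
    rw [← ht] at e1
    have e2 : (49 : ℝ) * b ≤ t * (50 * k) + 50 * k := by exact_mod_cast e1.le
    rw [← mul_div_assoc, div_le_iff₀ hkR]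
    linarith
  have p3 : (b / k : ℝ) ≤ 100 / 39 * (b / n) := by
    have e1 : 39 * n ≤ 100 * k := by omega
    have e2 : (39 : ℝ) * n ≤ 100 * k := by exact_mod_cast e1
    have e3 : (0 : ℝ) ≤ b := by positivity
    rw [← mul_div_assoc, div_le_div_iff₀ hkR (by positivity)]
    nlinarith
  have p4 : (W : ℝ) ≤ Real.exp (53 / 100 * (b / n)) := by
    have e1 : (W : ℝ) * 16 ^ (t + 1) ≤ 17 ^ p := by exact_mod_cast a3
    have e2 : (17 : ℝ) ^ p ≤ Real.exp (p * (1 / 16 + Real.log 16)) := by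
      rw [Real.exp_nat_mul]
      apply pow_le_pow_left₀ (by norm_num)
      rw [Real.exp_add, Real.exp_log (by norm_num)]
      linarith [Real.add_one_le_exp (1 / 16)]
    have e3 : (16 : ℝ) ^ (t + 1) = Real.exp ((t + 1 : ℕ) * Real.log 16) := by
      rw [Real.exp_nat_mul, Real.exp_log (by norm_num)]
    rw [e3, ← le_div_iff₀ (Real.exp_pos _)] at e1
    refine e1.trans ((div_le_div_of_nonneg_right e2 (Real.exp_pos _).le).trans ?_)
    rw [← Real.exp_sub]
    apply Real.exp_le_exp.mpr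
    rw [log16]
    push_cast
    have hbk : (0 : ℝ) ≤ b / k := by positivity
    have q1 : (p : ℝ) * (1 / 16 + 4 * Real.log 2) ≤ 103 / 100 * (b / k) * (1 / 16 + 4 * Real.log 2) :=
      mul_le_mul_of_nonneg_right p1 (by linarith)
    have q2 : 49 / 50 * (b / k : ℝ) * (4 * Real.log 2) ≤ (t + 1) * (4 * Real.log 2) :=
      mul_le_mul_of_nonneg_right p2 (by linarith)
    nlinarith
  have p5 : Real.exp ((b / n) / 100 - 1) ≤ 2 ^ (b / (50 * n)) := by
    refine le_trans (Real.exp_le_exp.mpr ?_) (exp_le_two_pow b (50 * n) (by omega))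
    have d5 : (b : ℝ) / ((50 * n : ℕ) : ℝ) = (b / n) / 50 := by push_cast; ring
    rw [d5]
    nlinarith
  have p6 : W * Real.exp ((b / n) / 100 - 1) ≤ 2 ^ (b / n) := by
    refine le_trans ?_ (exp_le_two_pow b n (by omega))
    refine (mul_le_mul_of_nonneg_right p4 (Real.exp_pos _).le).trans ?_
    rw [← Real.exp_add]
    apply Real.exp_le_exp.mpr
    nlinarith
  have p7 : Real.exp (-((b / n : ℝ) / 100 - 1)) ≤ Real.exp (1 - (N / n) / (100 * 3 ^ 40)) := by
    apply Real.exp_le_exp.mpr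
    have : (N / n : ℝ) / (100 * 3 ^ 40) = ((N / n : ℝ) / 3 ^ 40) / 100 := by ring
    rw [this]
    linarith
  have hs : (0 : ℝ) ≤ (SS n r).card := by positivity
  refine a1.trans ?_
  have q1 : ((SS n r).card : ℝ) / 2 ^ (b / (50 * n))
      ≤ (SS n r).card * Real.exp (-((b / n : ℝ) / 100 - 1)) := by
    rw [Real.exp_neg, ← div_eq_mul_inv]
    exact div_le_div_of_nonneg_left hs (Real.exp_pos _) p5
  have q2 : W * (((SS n r).card : ℝ) / 2 ^ (b / n))
      ≤ (SS n r).card * Real.exp (-((b / n : ℝ) / 100 - 1)) := by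
    rw [Real.exp_neg, mul_div_assoc', div_le_iff₀ (by positivity), mul_assoc, mul_comm (W : ℝ)]
    apply mul_le_mul_of_nonneg_left _ hs
    rw [← div_eq_inv_mul, le_div_iff₀ (Real.exp_pos _)]
    exact p6
  nlinarith [mul_le_mul_of_nonneg_left p7 hs]

end Pool.Agent.Lib.MP_7685df_co
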