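import Pool.Agent.Lib.MP_7685df_co.Info

set_option autoImplicit false
set_option linter.unusedSectionVars false

namespace Pool.Agent.Lib.MP_7685df_co

open Finset

variable {n r θ : ℕ} {A : Finset (Finset (Fin n))} {Z : Finset (Finset (Fin n) × ℕ)}

/-- A system of representatives. -/
structure Rep (r : ℕ) (A : Finset (Finset (Fin n))) (Z : Finset (Finset (Fin n) × ℕ))
    (P : Finset (Finset (Fin n))) (ρ : Finset (Fin n) → ℕ) (T : Finset (Finset (Fin n))) : Prop where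
  sub : T ⊆ Und r A Z ρ
  stable : Stable T
  sep : ∀ a ∈ T, ∀ b ∈ T, ∀ c ∈ Und r A Z ρ, Adj a c → Adj b c → a = b
  reach : ∀ b ∈ Und r A Z ρ, ∃ a ∈ T, Relation.ReflTransGen
      (fun x y => x ∈ Und r A Z ρ ∧ y ∈ Und r A Z ρ ∧ Adj x y) a b
  pref : ∀ a ∈ T, ∀ b ∈ Und r A Z ρ, b ∈ P → Adj a b → a ∈ P

theorem exists_rep (r : ℕ) (A : Finset (Finset (Fin n))) (Z : Finset (Finset (Fin n) × ℕ))
    (P : Finset (Finset (Fin n))) :
    ∃ T : (Finset (Fin n) → ℕ) → Finset (Finset (Fin n)), ∀ ρ, Rep r A Z P ρ (T ρ) := by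
  have : ∀ ρ, ∃ T, Rep r A Z P ρ T := by
    intro ρ
    obtain ⟨T, h1, h2, h3, h4, h5⟩ := exists_reps Adj (fun _ _ h => Adj.symm h) (Und r A Z ρ) P
    refine ⟨T, h1, fun a ha b hb hab => ?_, h3, h4, h5⟩
    have := h2 a ha b hb hab
    subst this
    exact not_adj_self _ hab
  choose T hT using this
  exact ⟨T, hT⟩

theorem rep_inj (c : Ctx r θ A Z) {P : Finset (Finset (Fin n))} {ρ ρ' : Finset (Fin n) → ℕ}
    (h : Cls r A Z ρ) (h' : Cls r A Z ρ') {T : Finset (Finset (Fin n))}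
    (t : Rep r A Z P ρ T) (t' : Rep r A Z P ρ' T) : ρ = ρ' :=
  eq_of_nonbases h h'
    (decode c h h' T t.reach (fun _ ha => (mem_Und.mp (t'.sub ha)).2.1))
    (decode c h' h T t'.reach (fun _ ha => (mem_Und.mp (t.sub ha)).2.1))

/-- The `r`-subsets. -/
def VV (n r : ℕ) : Finset (Finset (Fin n)) := powersetCard r univ

theorem mem_VV {X : Finset (Fin n)} : X ∈ VV n r ↔ X.card = r := by
  simp [VV, mem_powersetCard]

theorem card_VV : (VV n r).card = n.choose r := by simp [VV]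

theorem bad1_fixed (hn : 0 < n) (c : Ctx r θ A Z) (g κ f : ℕ) (hg0 : 0 < g)
    (MM : Finset (Finset (Fin n) → ℕ))
    (hM : ∀ ρ ∈ MM, Cls r A Z ρ ∧ (∀ F : Finset (Fin n), F.card ≤ g → ρ F = F.card) ∧
      (∀ F : Finset (Fin n), Fᶜ.card ≤ g → ρ F = r) ∧
      κ ≤ ((VV n r).filter (fun X => ρ X < r)).card)
    (hf : g * (n * f) + g * A.card + n * A.card ≤ g * κ) :
    MM.card * 2 ^ f ≤ (SS n r).card := by
  classical
  obtain ⟨T, hT⟩ := exists_rep r A Z ∅
  have hinj : Set.InjOn T MM := fun ρ hρ ρ' hρ' e =>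
    rep_inj c (hM ρ hρ).1 (hM ρ' hρ').1 (hT ρ) (e ▸ hT ρ')
  rw [← card_image_of_injOn hinj]
  apply count_free hn ((VV n r).filter (Cov Z)) (fun Y hY => mem_VV.mp (mem_filter.mp hY).1)
  intro T' hT'
  obtain ⟨ρ, hρ, rfl⟩ := mem_image.mp hT'
  obtain ⟨h, hg, hg', hκ⟩ := hM ρ hρ
  have t := hT ρ
  have hTA : ∀ X ∈ T ρ, X ∈ A := fun X hX => (mem_Und.mp (t.sub hX)).1
  refine ⟨fun X hX => c.card X (hTA X hX), t.stable, ?_, ?_⟩
  · rw [disjoint_left]
    intro X hX hX'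
    exact c.unc X (hTA X hX) (mem_filter.mp hX').2
  set G := (VV n r).filter (Cov Z) with hG
  have e1 : κ ≤ G.card + A.card := by
    refine hκ.trans ((card_le_card ?_).trans (card_union_le _ _))
    intro X hX
    rw [mem_filter] at hX
    rcases h.cov X (mem_VV.mp hX.1) hX.2 with h1 | h1
    · exact mem_union_left _ (mem_filter.mpr ⟨hX.1, h1⟩)
    · exact mem_union_right _ h1
  have e2 : G.card ≤ (G.filter (fun Y => ∀ X ∈ T ρ, ¬ Adj X Y)).card
      + ∑ X ∈ T ρ, (G.filter (fun Y => Adj X Y)).card := by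
    refine le_trans (card_le_card ?_) ((card_union_le _ _).trans
      (Nat.add_le_add_left card_biUnion_le _))
    intro Y hY
    by_cases h1 : ∀ X ∈ T ρ, ¬ Adj X Y
    · exact mem_union_left _ (mem_filter.mpr ⟨hY, h1⟩)
    · push Not at h1
      obtain ⟨X, hX, h2⟩ := h1
      exact mem_union_right _ (mem_biUnion.mpr ⟨X, hX, mem_filter.mpr ⟨hY, h2⟩⟩)
  have e3 : g * ∑ X ∈ T ρ, (G.filter (fun Y => Adj X Y)).card
      ≤ n * ∑ X ∈ T ρ, ((Und r A Z ρ).filter (fun Y => Adj X Y)).card := by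
    rw [mul_sum, mul_sum]
    apply sum_le_sum
    intro X hX
    have := block_one c h hg hg' (t.sub hX) G (fun Y hY => by
      have h1 := h.of_cov (mem_filter.mp hY).2
      rwa [mem_VV.mp (mem_filter.mp hY).1] at h1)
    rwa [Fintype.card_fin] at this
  have e4 : ∑ X ∈ T ρ, ((Und r A Z ρ).filter (fun Y => Adj X Y)).card ≤ A.card := by
    rw [← card_biUnion]
    · apply card_le_card
      intro Y hY
      obtain ⟨X, -, h1⟩ := mem_biUnion.mp hY
      exact (mem_Und.mp (mem_filter.mp h1).1).1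
    · intro a ha b hb hab
      rw [Function.onFun, disjoint_left]
      intro Y h1 h2
      rw [mem_filter] at h1 h2
      exact hab (t.sep a ha b hb Y h1.1 h1.2 h2.2)
  apply Nat.le_of_mul_le_mul_left _ hg0
  nlinarith [Nat.mul_le_mul_left g e1, Nat.mul_le_mul_left g e2, Nat.mul_le_mul_left n e4]

/-- The `r`-sets containing `C`. -/
def BB (r : ℕ) (C : Finset (Fin n)) : Finset (Finset (Fin n)) := (VV n r).filter (fun Y => C ⊆ Y)

/-- The members of `A` missing exactly the element `c₀` of `C`. -/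
def PP (A : Finset (Finset (Fin n))) (C : Finset (Fin n)) (c₀ : Fin n) :
    Finset (Finset (Fin n)) := A.filter (fun X => c₀ ∉ X ∧ C.erase c₀ ⊆ X)

theorem card_sdiff_PP (c : Ctx r θ A Z) {C : Finset (Fin n)} {c₀ : Fin n} (hc : c₀ ∈ C)
    {X : Finset (Fin n)} (hX : X ∈ PP A C c₀) : (X \ C).card = r + 1 - C.card := by
  obtain ⟨h1, h2, h3⟩ := mem_filter.mp hX
  have e1 : X ∩ C = C.erase c₀ := by
    ext a
    simp only [mem_inter, mem_erase]
    constructor
    · rintro ⟨h4, h5⟩; exact ⟨fun e => h2 (e ▸ h4), h5⟩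
    · intro h4; exact ⟨h3 (mem_erase.mpr h4), h4.2⟩
  have e2 := card_sdiff_add_card_inter X C
  rw [e1, card_erase_of_mem hc, c.card X h1] at e2
  have : 0 < C.card := card_pos.mpr ⟨_, hc⟩
  omega

theorem card_PP (c : Ctx r θ A Z) {C : Finset (Fin n)} {c₀ : Fin n} (hc : c₀ ∈ C) :
    (r + 1 - C.card) ^ 2 * (PP A C c₀).card ≤ (BB r C).card * ((r + 1 - C.card) + θ) := by
  have := clique_count (PP A C c₀) ((BB r C).image (fun Y => Y.erase c₀)) r (r + 1 - C.card) θ
    (by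
      intro D hD
      obtain ⟨Y, hY, rfl⟩ := mem_image.mp hD
      obtain ⟨h1, h2⟩ := mem_filter.mp hY
      rw [card_erase_add_one (h2 hc), mem_VV.mp h1])
    (fun X hX => c.card X (mem_filter.mp hX).1)
    (by
      intro X hX
      rw [← card_sdiff_PP c hc hX]
      obtain ⟨h1, h2, h3⟩ := mem_filter.mp hX
      have hXr := c.card X h1
      have : ((BB r C).image (fun Y => Y.erase c₀)).filter (fun D => D ⊆ X)
          = (X \ C).image (fun z => X.erase z) := by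
        ext D
        simp only [mem_filter, mem_image, BB, mem_VV, mem_sdiff]
        constructor
        · rintro ⟨⟨Y, ⟨h4, h5⟩, rfl⟩, h6⟩
          have h7 := card_erase_add_one (h5 hc)
          have h8 := card_sdiff_add_card_eq_card h6
          obtain ⟨z, hz⟩ := card_eq_one.mp (by omega : (X \ Y.erase c₀).card = 1)
          have hz' : z ∈ X \ Y.erase c₀ := hz ▸ mem_singleton_self z
          rw [mem_sdiff] at hz'
          refine ⟨z, ⟨hz'.1, fun h9 => hz'.2 (mem_erase.mpr ⟨fun e => h2 (e ▸ hz'.1), h5 h9⟩)⟩, ?_⟩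
          rw [erase_eq, ← hz, Finset.sdiff_sdiff_eq_self h6]
        · rintro ⟨z, ⟨h4, h5⟩, rfl⟩
          refine ⟨⟨insert c₀ (X.erase z), ⟨by rw [card_exch h4 h2, hXr], ?_⟩, ?_⟩, erase_subset _ _⟩
          · intro a ha
            by_cases hac : a = c₀
            · exact hac ▸ mem_insert_self _ _
            · exact mem_insert_of_mem (mem_erase.mpr
                ⟨fun e => h5 (e ▸ ha), h3 (mem_erase.mpr ⟨hac, ha⟩)⟩)
          · exact erase_insert (fun h => h2 (mem_of_mem_erase h))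
      rw [this, card_image_of_injOn]
      intro a ha b hb e
      exact (erase_injOn X) (mem_sdiff.mp ha).1 (mem_sdiff.mp hb).1 e)
    (fun X hX => lt_of_le_of_lt (card_le_card (filter_subset_filter _ (filter_subset _ _)))
      (c.deg X (mem_filter.mp hX).1))
  exact this.trans (Nat.mul_le_mul_right _ card_image_le)

theorem adj_BB {X Y C : Finset (Fin n)} (hY : C ⊆ Y) (hX : ¬ C ⊆ X) (hadj : Adj X Y) :
    ∃ x ∈ X \ C, ∃ y ∈ C, y ∉ X ∧ C.erase y ⊆ X ∧ Y = insert y (X.erase x) := by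
  obtain ⟨x, hx, y, hy, rfl⟩ := adj_iff.mp hadj
  have hxy : x ≠ y := fun e => hy (e ▸ hx)
  refine ⟨x, mem_sdiff.mpr ⟨hx, fun h => ?_⟩, y, ?_, hy, ?_, rfl⟩
  · have := hY h
    simp [hxy] at this
  · by_contra h
    apply hX
    intro a ha
    rcases mem_insert.mp (hY ha) with h1 | h1
    · exact absurd (h1 ▸ ha) h
    · exact mem_of_mem_erase h1
  · intro a ha
    rw [mem_erase] at ha
    rcases mem_insert.mp (hY ha.2) with h1 | h1
    · exact absurd h1 ha.1
    · exact mem_of_mem_erase h1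

theorem cov_BB (c : Ctx r θ A Z) {ρ : Finset (Fin n) → ℕ} (h : Cls r A Z ρ) {C : Finset (Fin n)}
    (hCθ : C.card ≤ θ) (hC : ρ C < C.card) {Y : Finset (Fin n)} (hY : C ⊆ Y) : Cov Z Y := by
  obtain ⟨k, hk⟩ := c.small C hCθ
  refine ⟨_, hk, ?_⟩
  have := h.val _ hk
  simp only [inter_eq_right.mpr hY] at this ⊢
  omega

theorem mem_PP_of_adj (c : Ctx r θ A Z) {ρ : Finset (Fin n) → ℕ} (h : Cls r A Z ρ)
    {C : Finset (Fin n)} {c₀ : Fin n} (hc : c₀ ∈ C) (hCθ : C.card ≤ θ) (hC : ρ C < C.card)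
    (hC' : ∀ a ∈ C, ρ (C.erase a) = ρ C) {T : Finset (Finset (Fin n))}
    (t : Rep r A Z (PP A C c₀) ρ T) {X Y : Finset (Fin n)} (hX : X ∈ T) (hY : C ⊆ Y)
    (hadj : Adj X Y) : X ∈ PP A C c₀ := by
  obtain ⟨hXA, h1, ρ', h', h2⟩ := mem_Und.mp (t.sub hX)
  have hXr := c.card X hXA
  obtain ⟨x, -, y, hyC, hyX, h3, -⟩ := adj_BB hY (fun e => c.unc X hXA (cov_BB c h hCθ hC e)) hadj
  by_cases hyc : y = c₀
  · subst hyc
    exact mem_filter.mpr ⟨hXA, hyX, h3⟩
  have hc₀ : c₀ ∈ X := h3 (mem_erase.mpr ⟨Ne.symm hyc, hc⟩)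
  have k1 : ρ (insert y (X.erase c₀)) < r := by
    have e1 := h.rk.cl_mono (A := C.erase y) (e := y) (by rw [insert_erase hyC, hC' y hyC]) h3
    have e2 := h.rk.mono _ _ (insert_subset_insert y (erase_subset c₀ X))
    omega
  have hsub : C.erase c₀ ⊆ insert y (X.erase c₀) := by
    intro a ha
    rw [mem_erase] at ha
    by_cases hay : a = y
    · exact hay ▸ mem_insert_self _ _
    · exact mem_insert_of_mem (mem_erase.mpr ⟨ha.1, h3 (mem_erase.mpr ⟨hay, ha.2⟩)⟩)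
  have k2 : ¬ ρ' (insert y (X.erase c₀)) < r := by
    obtain ⟨k, hk⟩ := c.small C hCθ
    obtain ⟨k', hk'⟩ := c.small (C.erase c₀) (card_erase_le.trans hCθ)
    have e1 := h.val _ hk
    have e2 := h.val _ hk'
    have e3 := h'.val _ hk
    have e4 := h'.val _ hk'
    have e5 := hC' c₀ hc
    simp only at e1 e2 e3 e4
    have e6 := h'.rk.cl_mono (A := C.erase c₀) (e := c₀) (by rw [insert_erase hc]; omega) hsub
    have e7 := h'.rk.mono X (insert c₀ (insert y (X.erase c₀))) (by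
      intro a ha
      by_cases hac : a = c₀
      · exact hac ▸ mem_insert_self _ _
      · exact mem_insert_of_mem (mem_insert_of_mem (mem_erase.mpr ⟨hac, ha⟩)))
    omega
  have k3 := mem_Und_of h h' (by rw [card_exch hc₀ hyX, hXr]) k1 k2
  refine t.pref X hX _ k3 (mem_filter.mpr ⟨(mem_Und.mp k3).1, ?_, hsub⟩) (adj_mk hc₀ hyX)
  simp [Ne.symm hyc]

theorem bad2_fixed (hn : 0 < n) (c : Ctx r θ A Z) {C : Finset (Fin n)} {c₀ : Fin n} (hc : c₀ ∈ C)
    (hCθ : C.card ≤ θ) (t f₂ f₃ : ℕ) (MM : Finset (Finset (Fin n) → ℕ))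
    (hM : ∀ ρ ∈ MM, Cls r A Z ρ ∧ ρ C < C.card ∧ ∀ a ∈ C, ρ (C.erase a) = ρ C)
    (h₂ : n * f₂ + t * (r + 1 - C.card) ≤ (BB r C).card) (h₃ : n * f₃ ≤ (BB r C).card) :
    (MM.card : ℝ) ≤ (SS n r).card / 2 ^ f₂ +
      (((PP A C c₀).powerset.filter (fun Q => t < Q.card)).card : ℝ) * ((SS n r).card / 2 ^ f₃) := by
  classical
  obtain ⟨T, hT⟩ := exists_rep r A Z (PP A C c₀)
  set P := PP A C c₀ with hP
  have hinj : Set.InjOn T MM := fun ρ hρ ρ' hρ' e =>
    rep_inj c (hM ρ hρ).1 (hM ρ' hρ').1 (hT ρ) (e ▸ hT ρ')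
  have hB : ∀ Y ∈ BB r C, Y.card = r := fun Y hY => mem_VV.mp (mem_filter.mp hY).1
  have hTA : ∀ ρ, ∀ X ∈ T ρ, X ∈ A := fun ρ X hX => (mem_Und.mp ((hT ρ).sub hX)).1
  have hnot : ∀ ρ ∈ MM, ∀ X ∈ T ρ, ¬ C ⊆ X := fun ρ hρ X hX e =>
    c.unc X (hTA ρ X hX) (cov_BB c (hM ρ hρ).1 hCθ (hM ρ hρ).2.1 e)
  have hPP : ∀ ρ ∈ MM, ∀ X ∈ T ρ, ∀ Y ∈ BB r C, Adj X Y → X ∈ P := fun ρ hρ X hX Y hY hadj =>
    mem_PP_of_adj c (hM ρ hρ).1 hc hCθ (hM ρ hρ).2.1 (hM ρ hρ).2.2 (hT ρ) hX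
      (mem_filter.mp hY).2 hadj
  rw [← card_filter_add_card_filter_not (s := MM) (fun ρ => (T ρ ∩ P).card ≤ t)]
  push_cast
  apply add_le_add
  · rw [le_div_iff₀ (by positivity)]
    have : (MM.filter (fun ρ => (T ρ ∩ P).card ≤ t)).card * 2 ^ f₂ ≤ (SS n r).card := by
      rw [← card_image_of_injOn (hinj.mono (coe_subset.mpr (filter_subset _ _)))]
      apply count_free hn (BB r C) hB
      intro T' hT'
      obtain ⟨ρ, hρ, rfl⟩ := mem_image.mp hT'
      obtain ⟨hρ, hρt⟩ := mem_filter.mp hρ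
      refine ⟨fun X hX => c.card X (hTA ρ X hX), (hT ρ).stable, ?_, ?_⟩
      · rw [disjoint_left]
        intro X hX hX'
        exact hnot ρ hρ X hX (mem_filter.mp hX').2
      have e2 : (BB r C).card ≤ ((BB r C).filter (fun Y => ∀ X ∈ T ρ, ¬ Adj X Y)).card
          + ∑ X ∈ T ρ ∩ P, ((X \ C).image (fun x => insert c₀ (X.erase x))).card := by
        refine le_trans (card_le_card ?_) ((card_union_le _ _).trans
          (Nat.add_le_add_left card_biUnion_le _))
        intro Y hY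
        by_cases h1 : ∀ X ∈ T ρ, ¬ Adj X Y
        · exact mem_union_left _ (mem_filter.mpr ⟨hY, h1⟩)
        · push Not at h1
          obtain ⟨X, hX, h2⟩ := h1
          have hXP := hPP ρ hρ X hX Y hY h2
          refine mem_union_right _ (mem_biUnion.mpr ⟨X, mem_inter.mpr ⟨hX, hXP⟩, ?_⟩)
          obtain ⟨x, hx, y, hyC, hyX, h3, rfl⟩ := adj_BB (mem_filter.mp hY).2 (hnot ρ hρ X hX) h2
          refine mem_image.mpr ⟨x, hx, ?_⟩
          have : y = c₀ := by
            by_contra hne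
            exact hyX ((mem_filter.mp hXP).2.2 (mem_erase.mpr ⟨hne, hyC⟩))
          rw [this]
      have e3 : ∑ X ∈ T ρ ∩ P, ((X \ C).image (fun x => insert c₀ (X.erase x))).card
          ≤ t * (r + 1 - C.card) := by
        refine le_trans (sum_le_card_nsmul _ _ (r + 1 - C.card) ?_) ?_
        · intro X hX
          exact card_image_le.trans (card_sdiff_PP c hc (mem_inter.mp hX).2).le
        · exact Nat.mul_le_mul_right _ hρt
      omega
    exact_mod_cast this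
  · have key : ∀ Q : Finset (Finset (Fin n)),
        (((MM.filter (fun ρ => ¬ (T ρ ∩ P).card ≤ t)).filter (fun ρ => T ρ ∩ P = Q)).card : ℝ)
          ≤ (SS n r).card / 2 ^ f₃ := by
      intro Q
      rw [le_div_iff₀ (by positivity)]
      have hinj' : Set.InjOn (fun ρ => T ρ \ P)
          ((MM.filter (fun ρ => ¬ (T ρ ∩ P).card ≤ t)).filter (fun ρ => T ρ ∩ P = Q) : Finset _) := by
        intro ρ hρ ρ' hρ' e
        simp only [coe_filter, mem_filter, Set.mem_ofPred_eq] at hρ hρ' e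
        apply hinj hρ.1.1 hρ'.1.1
        rw [← sdiff_union_inter (T ρ) P, ← sdiff_union_inter (T ρ') P, e, hρ.2, hρ'.2]
      have : ((MM.filter (fun ρ => ¬ (T ρ ∩ P).card ≤ t)).filter (fun ρ => T ρ ∩ P = Q)).card
          * 2 ^ f₃ ≤ (SS n r).card := by
        rw [← card_image_of_injOn hinj']
        apply count_free hn (BB r C) hB
        intro T' hT'
        obtain ⟨ρ, hρ, rfl⟩ := mem_image.mp hT'
        have hρ : ρ ∈ MM := (mem_filter.mp (mem_filter.mp hρ).1).1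
        refine ⟨fun X hX => c.card X (hTA ρ X (mem_sdiff.mp hX).1),
          fun X hX Y hY => (hT ρ).stable X (mem_sdiff.mp hX).1 Y (mem_sdiff.mp hY).1, ?_, ?_⟩
        · rw [disjoint_left]
          intro X hX hX'
          exact hnot ρ hρ X (mem_sdiff.mp hX).1 (mem_filter.mp hX').2
        · rw [filter_true_of_mem]
          · exact h₃
          · intro Y hY X hX hadj
            exact (mem_sdiff.mp hX).2 (hPP ρ hρ X (mem_sdiff.mp hX).1 Y hY hadj)
      exact_mod_cast this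
    rw [card_eq_sum_card_fiberwise (f := fun ρ => T ρ ∩ P)
      (t := P.powerset.filter (fun Q => t < Q.card))]
    · push_cast
      refine (sum_le_card_nsmul _ _ _ (fun Q _ => key Q)).trans ?_
      rw [nsmul_eq_mul]
    · intro ρ hρ
      simp only [coe_filter, mem_powerset, Set.mem_ofPred_eq] at hρ ⊢
      exact ⟨inter_subset_right, by omega⟩

end Pool.Agent.Lib.MP_7685df_co
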