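import Pool.Agent.Lib.MP_7685df_co.Count

set_option autoImplicit false
set_option linter.unusedSectionVars false

namespace Pool.Agent.Lib.MP_7685df_co

open Finset

variable {n r : ℕ}

theorem card_of_deg (hr : 0 < r) (A : Finset (Finset (Fin n))) (hA : ∀ X ∈ A, X.card = r) (D : ℕ)
    (hdeg : ∀ X ∈ A, (A.filter (fun Y => Adj X Y)).card < D) :
    r ^ 2 * A.card ≤ n.choose (r - 1) * (r + D) := by
  rw [← card_VV]
  apply clique_count A (VV n (r - 1)) r r D (fun D hD => by rw [mem_VV.mp hD]; omega) hA _ hdeg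
  intro X hX
  have : (VV n (r - 1)).filter (fun D => D ⊆ X) = powersetCard (r - 1) X := by
    ext D
    simp only [mem_filter, mem_VV, mem_powersetCard]
    tauto
  rw [this, card_powersetCard, hA X hX]
  obtain ⟨k, rfl⟩ : ∃ k, r = k + 1 := ⟨r - 1, by omega⟩
  simp

/-- Small and co-small sets. -/
def SM (n θ : ℕ) : Finset (Finset (Fin n)) :=
  univ.filter (fun F => F.card ≤ θ ∨ Fᶜ.card ≤ θ)

/-- The unknown region described by the data. -/
def AA (n r θ₁ θ : ℕ) (S₁ S₂ : Finset (Finset (Fin n))) (Z : Finset (Finset (Fin n) × ℕ)) :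
    Finset (Finset (Fin n)) :=
  (cont Adj (cont Adj (VV n r) S₁ θ₁) S₂ θ).filter (fun X => ¬ Cov Z X)

theorem exists_info {ρ : Finset (Fin n) → ℕ} (h : IsRk ρ) (htop : ρ univ = r) (θ₁ θ : ℕ)
    (h₁ : 0 < θ₁) (h₂ : 0 < θ) :
    ∃ (S₁ S₂ : Finset (Finset (Fin n))) (Z : Finset (Finset (Fin n) × ℕ)),
      S₁.card * θ₁ ≤ n.choose r ∧ S₂.card * θ ≤ (cont Adj (VV n r) S₁ θ₁).card ∧
      Z.card ≤ 3 * S₁.card + 3 * S₂.card + (SM n θ).card ∧ Z ⊆ univ ×ˢ range (n + 1) ∧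
      Ctx r θ (AA n r θ₁ θ S₁ S₂ Z) Z ∧ Cls r (AA n r θ₁ θ S₁ S₂ Z) Z ρ := by
  set K := (VV n r).filter (fun X => ρ X < r) with hK
  obtain ⟨S₁, a1, a2, a3⟩ := exists_cont Adj (VV n r) K θ₁ h₁
  obtain ⟨S₂, b1, b2, b3⟩ := exists_cont Adj (cont Adj (VV n r) S₁ θ₁) K θ h₂
  set S := S₁ ∪ S₂ with hS
  set FF : Finset (Finset (Fin n)) := S ∪ S.image (fun X => X \ rows ρ X) ∪
    S.image (fun X => X ∪ cols ρ X) ∪ SM n θ with hFF
  set Z := FF.image (fun F => (F, ρ F)) with hZ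
  have hmem : ∀ F ∈ FF, (F, ρ F) ∈ Z := fun F hF => mem_image_of_mem _ hF
  have hcov : ∀ X ∈ S, ∀ Y, Adj X Y → ρ Y < r → Cov Z Y := by
    intro X hX Y hadj hY
    have hXK : X ∈ K := by
      rcases mem_union.mp hX with h' | h'
      · exact a1 h'
      · exact b1 h'
    have hXr := mem_VV.mp (mem_filter.mp hXK).1
    apply local_cover h (hXr ▸ (mem_filter.mp hXK).2) hadj (hXr ▸ hY)
    · exact hmem _ (by simp [hFF, hX])
    · exact hmem _ (mem_union_left _ (mem_union_left _ (mem_union_right _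
        (mem_image_of_mem _ hX))))
    · exact hmem _ (mem_union_left _ (mem_union_right _ (mem_image_of_mem _ hX)))
  refine ⟨S₁, S₂, Z, card_VV ▸ a2, b2, ?_, ?_, ⟨?_, ?_, ?_, ?_, ?_⟩, ⟨h, htop, ?_, ?_⟩⟩
  · have e1 : Z.card ≤ FF.card := card_image_le
    have e2 : S.card ≤ S₁.card + S₂.card := card_union_le _ _
    have e3 : (S.image (fun X => X \ rows ρ X)).card ≤ S.card := card_image_le
    have e4 : (S.image (fun X => X ∪ cols ρ X)).card ≤ S.card := card_image_le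
    have e5 := card_union_le (S ∪ S.image (fun X => X \ rows ρ X) ∪
      S.image (fun X => X ∪ cols ρ X)) (SM n θ)
    have e6 := card_union_le (S ∪ S.image (fun X => X \ rows ρ X))
      (S.image (fun X => X ∪ cols ρ X))
    have e7 := card_union_le S (S.image (fun X => X \ rows ρ X))
    rw [← hFF] at e5
    omega
  · intro p hp
    obtain ⟨F, -, rfl⟩ := mem_image.mp hp
    have e1 := h.le_card F
    have e2 := card_le_univ F
    rw [Fintype.card_fin] at e2
    simp only [mem_product, mem_univ, mem_range, true_and]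
    omega
  · intro X hX
    exact mem_VV.mp (cont_subset _ _ _ _ (cont_subset _ _ _ _ (mem_filter.mp hX).1))
  · intro X hX
    exact lt_of_le_of_lt (card_le_card (filter_subset_filter _ (filter_subset _ _)))
      (cont_deg _ _ _ _ X (mem_filter.mp hX).1)
  · intro X hX
    exact (mem_filter.mp hX).2
  · intro F hF
    exact ⟨_, hmem F (mem_union_right _ (by simp [SM, hF]))⟩
  · intro F hF
    exact ⟨_, hmem F (mem_union_right _ (by simp only [SM, mem_filter, mem_univ]; tauto))⟩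
  · intro p hp
    obtain ⟨F, -, rfl⟩ := mem_image.mp hp
    rfl
  · intro X hX hXr
    by_cases hc : Cov Z X
    · exact Or.inl hc
    right
    refine mem_filter.mpr ⟨?_, hc⟩
    have hXV : X ∈ VV n r := mem_VV.mpr hX
    have hXK : X ∈ K := mem_filter.mpr ⟨hXV, hXr⟩
    rcases a3 X hXK hXV with ⟨s, hs, hadj⟩ | h3
    · exact absurd (hcov s (mem_union_left _ hs) X hadj hXr) hc
    rcases b3 X hXK h3 with ⟨s, hs, hadj⟩ | h4
    · exact absurd (hcov s (mem_union_right _ hs) X hadj hXr) hc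
    exact h4

/-- Subsets of size at most `σ`. -/
noncomputable def LE {β : Type*} (U : Finset β) (σ : ℝ) : Finset (Finset β) :=
  U.powerset.filter (fun S => (S.card : ℝ) ≤ σ)

theorem card_LE {β : Type*} [DecidableEq β] (U : Finset β) (σ x : ℝ) (hx : 0 < x) (hx1 : x ≤ 1) :
    ((LE U σ).card : ℝ) ≤ Real.exp (x * U.card - σ * Real.log x) := by
  have e1 : ∑ S ∈ U.powerset, x ^ S.card = (1 + x) ^ U.card := by
    rw [← prod_const, prod_one_add]
    simp
  have e2 : ((LE U σ).card : ℝ) * Real.exp (σ * Real.log x) ≤ (1 + x) ^ U.card := by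
    rw [← e1, ← nsmul_eq_mul, ← sum_const]
    refine le_trans (sum_le_sum ?_) (sum_le_sum_of_subset_of_nonneg (filter_subset _ _)
      (fun _ _ _ => by positivity))
    intro S hS
    rw [← Real.exp_log (pow_pos hx _), Real.log_pow]
    apply Real.exp_le_exp.mpr
    exact mul_le_mul_of_nonpos_right (mem_filter.mp hS).2 (Real.log_nonpos hx.le hx1)
  have e3 : (1 + x) ^ U.card ≤ Real.exp (x * U.card) := by
    rw [mul_comm, Real.exp_nat_mul]
    exact pow_le_pow_left₀ (by linarith) (by linarith [Real.add_one_le_exp x]) _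
  rw [Real.exp_sub, le_div_iff₀ (Real.exp_pos _)]
  exact e2.trans e3

theorem card_GT {β : Type*} [DecidableEq β] (U : Finset β) (t : ℕ) :
    (U.powerset.filter (fun S => t < S.card)).card * 16 ^ (t + 1) ≤ 17 ^ U.card := by
  have e1 : ∑ S ∈ U.powerset, 16 ^ S.card = (1 + 16) ^ U.card := by
    rw [← prod_const, prod_one_add]
    simp
  rw [show (17 : ℕ) = 1 + 16 by norm_num, ← e1, ← smul_eq_mul, ← sum_const]
  refine le_trans (sum_le_sum ?_) (sum_le_sum_of_subset (filter_subset _ _))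
  intro S hS
  exact Nat.pow_le_pow_right (by norm_num) (mem_filter.mp hS).2

theorem sum_info (hr : 0 < r) (θ₁ θ : ℕ) (h₁ : 0 < θ₁) (h₂ : 0 < θ) (σ b x : ℝ)
    (hx : 0 < x) (hx1 : x ≤ 1) (hb0 : 0 ≤ b)
    (hσ : ∀ s₁ s₂ a : ℕ, s₁ * θ₁ ≤ n.choose r → s₂ * θ ≤ a →
      r ^ 2 * a ≤ n.choose (r - 1) * (r + θ₁) →
      ((3 * s₁ + 3 * s₂ + (SM n θ).card : ℕ) : ℝ) ≤ σ)
    (Bad : Finset (Finset (Fin n) → ℕ)) (hBad : ∀ ρ ∈ Bad, IsRk ρ ∧ ρ univ = r)
    (hb : ∀ A Z, Ctx r θ A Z → ∀ MM, MM ⊆ Bad → (∀ ρ ∈ MM, Cls r A Z ρ) → (MM.card : ℝ) ≤ b) :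
    (Bad.card : ℝ) ≤ Real.exp (3 * (x * (2 ^ n * (n + 1)) - σ * Real.log x)) * b := by
  classical
  have hex : ∀ ρ : Finset (Fin n) → ℕ, ∃ i : Finset (Finset (Fin n)) × Finset (Finset (Fin n)) ×
      Finset (Finset (Fin n) × ℕ), ρ ∈ Bad →
      i ∈ LE univ σ ×ˢ LE univ σ ×ˢ LE (univ ×ˢ range (n + 1)) σ ∧
      Ctx r θ (AA n r θ₁ θ i.1 i.2.1 i.2.2) i.2.2 ∧ Cls r (AA n r θ₁ θ i.1 i.2.1 i.2.2) i.2.2 ρ := by
    intro ρ
    by_cases hρ : ρ ∈ Bad
    swap
    · exact ⟨(∅, ∅, ∅), fun h => absurd h hρ⟩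
    obtain ⟨S₁, S₂, Z, a1, a2, a3, a4, a5, a6⟩ := exists_info (hBad ρ hρ).1 (hBad ρ hρ).2 θ₁ θ h₁ h₂
    have e1 := hσ _ _ _ a1 a2 (card_of_deg hr _
      (fun X hX => mem_VV.mp (cont_subset _ _ _ _ hX)) θ₁ (cont_deg _ _ _ _))
    refine ⟨(S₁, S₂, Z), fun _ => ⟨?_, a5, a6⟩⟩
    simp only [LE, mem_product, mem_filter, mem_powerset, subset_univ, true_and, a4]
    refine ⟨le_trans ?_ e1, le_trans ?_ e1, le_trans ?_ e1⟩ <;> exact_mod_cast (by omega)
  choose inf hinf using hex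
  rw [card_eq_sum_card_fiberwise (f := inf)
    (t := LE univ σ ×ˢ LE univ σ ×ˢ LE (univ ×ˢ range (n + 1)) σ) (fun ρ hρ => (hinf ρ hρ).1)]
  push_cast
  refine (sum_le_card_nsmul _ _ b ?_).trans ?_
  · intro i _
    rcases (Bad.filter (fun ρ => inf ρ = i)).eq_empty_or_nonempty with h | ⟨ρ₀, h⟩
    · rw [h]; simpa using hb0
    · rw [mem_filter] at h
      refine hb _ _ (h.2 ▸ (hinf ρ₀ h.1).2.1) _ (filter_subset _ _) ?_
      intro ρ hρ
      rw [mem_filter] at hρ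
      exact hρ.2 ▸ (hinf ρ hρ.1).2.2
  · rw [nsmul_eq_mul]
    apply mul_le_mul_of_nonneg_right _ hb0
    rw [card_product, card_product]
    push_cast
    have e1 := card_LE (univ : Finset (Finset (Fin n))) σ x hx hx1
    have e2 := card_LE ((univ : Finset (Finset (Fin n))) ×ˢ range (n + 1)) σ x hx hx1
    simp only [card_product, card_univ, Fintype.card_finset, Fintype.card_fin, card_range] at e1 e2
    push_cast at e1 e2
    have e3 : Real.exp (x * 2 ^ n - σ * Real.log x)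
        ≤ Real.exp (x * (2 ^ n * (n + 1)) - σ * Real.log x) := by
      apply Real.exp_le_exp.mpr
      have : (0 : ℝ) ≤ x * (2 ^ n * n) := by positivity
      nlinarith
    rw [show (3 : ℝ) = ((3 : ℕ) : ℝ) by norm_num, Real.exp_nat_mul, pow_succ', pow_succ', pow_one]
    apply mul_le_mul (e1.trans e3) _ (by positivity) (by positivity)
    exact mul_le_mul (e1.trans e3) e2 (by positivity) (by positivity)

end Pool.Agent.Lib.MP_7685df_co
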