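import Pool.Agent.Lib.MP_7685df_co.Rk

set_option autoImplicit false

namespace Pool.Agent.Lib.MP_7685df_co

open Finset Polynomial

variable {α : Type*} [DecidableEq α]

/-- Independent subsets of `E`. -/
def ind (ρ : Finset α → ℕ) (E : Finset α) : Finset (Finset α) :=
  E.powerset.filter (fun I => ρ I = I.card)

omit [DecidableEq α] in
theorem mem_ind {ρ : Finset α → ℕ} {E I : Finset α} : I ∈ ind ρ E ↔ I ⊆ E ∧ ρ I = I.card := by
  simp [ind]

theorem sum_ind_loop {M : Type*} [AddCommMonoid M] {ρ : Finset α → ℕ} (h : IsRk ρ) {e : α}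
    {E : Finset α} (he : e ∉ E) (h0 : ρ {e} = 0) (f : Finset α → M) :
    ∑ I ∈ ind ρ (insert e E), f I = ∑ I ∈ ind ρ E, f I := by
  unfold ind
  rw [sum_filter, sum_filter, sum_powerset_insert he]
  have : ∑ t ∈ E.powerset, (if ρ (insert e t) = (insert e t).card then f (insert e t) else 0) = 0 := by
    apply sum_eq_zero
    intro t ht
    have het : e ∉ t := fun h' => he (mem_powerset.mp ht h')
    have h1 := h.submod {e} t
    rw [← insert_eq] at h1
    have h2 := h.le_card t
    rw [if_neg]
    rw [card_insert_of_notMem het]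
    omega
  rw [this, add_zero]

theorem sum_ind_nonloop {M : Type*} [AddCommMonoid M] {ρ : Finset α → ℕ} (h : IsRk ρ) {e : α}
    {E : Finset α} (he : e ∉ E) (h1 : ρ {e} = 1) (f : Finset α → M) :
    ∑ I ∈ ind ρ (insert e E), f I =
      ∑ I ∈ ind ρ E, f I + ∑ I ∈ ind (con ρ e) E, f (insert e I) := by
  unfold ind
  rw [sum_filter, sum_filter, sum_filter, sum_powerset_insert he]
  congr 1
  apply sum_congr rfl
  intro t ht
  have het : e ∉ t := fun h' => he (mem_powerset.mp ht h')
  have h2 : ρ {e} ≤ ρ (insert e t) := h.mono _ _ (by simp)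
  rw [card_insert_of_notMem het]
  have : (ρ (insert e t) = t.card + 1) ↔ (con ρ e t = t.card) := by
    unfold con; omega
  simp only [this]

theorem IsRk.loop_insert {ρ : Finset α → ℕ} (h : IsRk ρ) {e : α} (h0 : ρ {e} = 0)
    (E : Finset α) : ρ (insert e E) = ρ E := by
  have h1 := h.submod {e} E
  rw [← insert_eq] at h1
  have h2 := h.le_insert e E
  omega

theorem IsRk.coloop_con {ρ : Finset α → ℕ} (h : IsRk ρ) {e : α} {E : Finset α}
    (hc : ρ (insert e E) ≠ ρ E) {J : Finset α} (hJ : J ⊆ E) : con ρ e J = ρ J := by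
  have key : ∀ I, I ⊆ E → ρ (insert e I) = ρ I + 1 := by
    intro I hI
    have h1 := h.insert_le e I
    have h2 := h.le_insert e I
    by_contra hne
    exact hc (h.cl_mono (by omega) hI)
  have h1 := key ∅ (empty_subset _)
  have h2 := key J hJ
  rw [h.empty] at h1
  unfold con
  simp only [insert_empty_eq] at h1
  omega

omit [DecidableEq α] in
theorem ind_congr {ρ ρ' : Finset α → ℕ} {E : Finset α} (h : ∀ J ⊆ E, ρ J = ρ' J) :
    ind ρ E = ind ρ' E := by
  ext I
  simp only [mem_ind]
  constructor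
  · rintro ⟨h1, h2⟩; exact ⟨h1, h I h1 ▸ h2⟩
  · rintro ⟨h1, h2⟩; exact ⟨h1, (h I h1).symm ▸ h2⟩

/-- The H-polynomial. -/
noncomputable def HP (ρ : Finset α → ℕ) (E : Finset α) : ℤ[X] :=
  ∑ I ∈ ind ρ E, X ^ I.card * (1 - X) ^ (ρ E - I.card)

theorem HP_loop {ρ : Finset α → ℕ} (h : IsRk ρ) {e : α} {E : Finset α} (he : e ∉ E)
    (h0 : ρ {e} = 0) : HP ρ (insert e E) = HP ρ E := by
  unfold HP
  rw [sum_ind_loop h he h0, h.loop_insert h0]

theorem HP_con_aux {ρ : Finset α → ℕ} {e : α} {E : Finset α} (he : e ∉ E)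
    (h1 : ρ {e} = 1) :
    ∑ I ∈ ind (con ρ e) E, (X : ℤ[X]) ^ (insert e I).card * (1 - X) ^ (ρ (insert e E) - (insert e I).card)
      = X * HP (con ρ e) E := by
  unfold HP
  rw [mul_sum]
  apply sum_congr rfl
  intro I hI
  have heI : e ∉ I := fun h' => he ((mem_ind.mp hI).1 h')
  rw [card_insert_of_notMem heI]
  have : ρ (insert e E) - (I.card + 1) = con ρ e E - I.card := by
    unfold con; omega
  rw [this]; ring

theorem HP_gen {ρ : Finset α → ℕ} (h : IsRk ρ) {e : α} {E : Finset α} (he : e ∉ E)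
    (h1 : ρ {e} = 1) (h2 : ρ (insert e E) = ρ E) :
    HP ρ (insert e E) = HP ρ E + X * HP (con ρ e) E := by
  rw [← HP_con_aux he h1]
  conv_lhs => unfold HP
  rw [sum_ind_nonloop h he h1, h2]
  rfl

theorem HP_coloop {ρ : Finset α → ℕ} (h : IsRk ρ) {e : α} {E : Finset α} (he : e ∉ E)
    (h1 : ρ {e} = 1) (h2 : ρ (insert e E) ≠ ρ E) :
    HP ρ (insert e E) = HP (con ρ e) E := by
  have h3 : ρ (insert e E) = ρ E + 1 := by
    have := h.insert_le e E
    have := h.le_insert e E
    omega
  have h4 : HP ρ (insert e E) = (1 - X) * HP (con ρ e) E + X * HP (con ρ e) E := by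
    rw [← HP_con_aux he h1]
    conv_lhs => unfold HP
    rw [sum_ind_nonloop h he h1]
    congr 1
    unfold HP
    rw [ind_congr (ρ := con ρ e) (ρ' := ρ) (fun J hJ => h.coloop_con h2 hJ), mul_sum,
      h.coloop_con h2 (Subset.refl _)]
    apply sum_congr rfl
    intro I hI
    have h5 := h.mono I E (mem_ind.mp hI).1
    have h6 := (mem_ind.mp hI).2
    have : ρ (insert e E) - I.card = (ρ E - I.card) + 1 := by omega
    rw [this]; ring
  rw [h4]; ring

theorem HP_empty {ρ : Finset α → ℕ} (h : IsRk ρ) : HP ρ ∅ = 1 := by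
  have : ind ρ ∅ = {∅} := by
    ext I; simp only [mem_ind, subset_empty, mem_singleton]
    constructor
    · exact fun h => h.1
    · rintro rfl; simp [h.empty]
  simp [HP, this, h.empty]

theorem multichoose_mono (N i : ℕ) : N.multichoose i ≤ (N + 1).multichoose i := by
  cases i with
  | zero => simp
  | succ i => rw [Nat.multichoose_succ_succ]; omega

theorem HP_coeff (E : Finset α) : ∀ {ρ : Finset α → ℕ}, IsRk ρ →
    (HP ρ E).coeff 0 = 1 ∧ (∀ i, 0 ≤ (HP ρ E).coeff i) ∧
    (∀ i, (HP ρ E).coeff i ≤ (E.card - ρ E).multichoose i) ∧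
    (∀ i, ρ E < i → (HP ρ E).coeff i = 0) := by
  induction E using Finset.induction_on with
  | empty =>
    intro ρ h
    rw [HP_empty h]
    refine ⟨by simp, fun i => ?_, fun i => ?_, fun i hi => ?_⟩
    · rw [coeff_one]; split_ifs <;> simp
    · rw [coeff_one]; split_ifs with hi
      · subst hi; simp
      · simp
    · rw [coeff_one, if_neg (by omega)]
  | insert e E he ih =>
    intro ρ h
    have hc := card_insert_of_notMem he
    have hle := h.le_card E
    have he1 := h.le_card {e}
    rw [card_singleton] at he1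
    have hcon : con ρ e E = ρ (insert e E) - ρ {e} := rfl
    by_cases h0 : ρ {e} = 0
    · obtain ⟨a1, a2, a3, a4⟩ := ih h
      rw [HP_loop h he h0, h.loop_insert h0]
      refine ⟨a1, a2, fun i => (a3 i).trans ?_, a4⟩
      have : (insert e E).card - ρ E = (E.card - ρ E) + 1 := by omega
      rw [this]
      exact_mod_cast multichoose_mono _ _
    · have h1 : ρ {e} = 1 := by omega
      have hge : ρ {e} ≤ ρ (insert e E) := h.mono _ _ (by simp)
      obtain ⟨b1, b2, b3, b4⟩ := ih (h.con_rk e)
      by_cases h2 : ρ (insert e E) = ρ E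
      · obtain ⟨a1, a2, a3, a4⟩ := ih h
        rw [HP_gen h he h1 h2]
        refine ⟨by simp [a1], fun i => ?_, fun i => ?_, fun i hi => ?_⟩
        · cases i with
          | zero => simp [a1]
          | succ i => rw [coeff_add, coeff_X_mul]; exact add_nonneg (a2 _) (b2 _)
        · cases i with
          | zero => simp [a1]
          | succ i =>
            rw [coeff_add, coeff_X_mul]
            have e1 : (insert e E).card - ρ (insert e E) = (E.card - ρ E) + 1 := by omega
            have e2 : E.card - con ρ e E = (E.card - ρ E) + 1 := by omega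
            rw [e1, Nat.multichoose_succ_succ]
            have := b3 i
            rw [e2] at this
            push_cast
            exact add_le_add (a3 _) this
        · cases i with
          | zero => omega
          | succ i =>
            rw [coeff_add, coeff_X_mul, a4 _ (by omega), b4 _ (by omega), add_zero]
      · rw [HP_coloop h he h1 h2]
        refine ⟨b1, b2, fun i => ?_, fun i hi => b4 i (by omega)⟩
        have e1 : (insert e E).card - ρ (insert e E) = E.card - con ρ e E := by omega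
        rw [e1]; exact b3 i

/-- Number of bases of `E` containing `J`. -/
def nb (ρ : Finset α → ℕ) (E J : Finset α) : ℤ :=
  ∑ I ∈ ind ρ E, if I.card = ρ E ∧ J ⊆ I then 1 else 0

theorem nb_le_one (ρ : Finset α → ℕ) (E J : Finset α) (hJ : ρ E ≤ J.card ∨ E = J) :
    nb ρ E J ≤ 1 := by
  unfold nb
  rw [← sum_filter, sum_const, nsmul_eq_mul, mul_one]
  have : ((ind ρ E).filter (fun I => I.card = ρ E ∧ J ⊆ I)).card ≤ 1 := by
    have hs : (ind ρ E).filter (fun I => I.card = ρ E ∧ J ⊆ I) ⊆ {J} := by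
      intro I hI
      simp only [mem_filter, mem_ind] at hI
      rw [mem_singleton]
      rcases hJ with hJ | hJ
      · exact (eq_of_subset_of_card_le hI.2.2 (by omega)).symm
      · exact Subset.antisymm (hJ ▸ hI.1.1) hI.2.2
    simpa using card_le_card hs
  exact_mod_cast this

theorem nb_le (J F : Finset α) : Disjoint F J → ∀ {ρ : Finset α → ℕ}, IsRk ρ → ∀ k : ℕ,
    ρ (F ∪ J) ≤ J.card + k → nb ρ (F ∪ J) J ≤ ∑ i ∈ range (k + 1), (HP ρ (F ∪ J)).coeff i := by
  have base : ∀ {ρ : Finset α → ℕ} (E : Finset α), IsRk ρ → ∀ k : ℕ,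
      (1 : ℤ) ≤ ∑ i ∈ range (k + 1), (HP ρ E).coeff i := by
    intro ρ E h k
    obtain ⟨a1, a2, -, -⟩ := HP_coeff E h
    rw [← a1]
    exact single_le_sum (f := fun i => (HP ρ E).coeff i) (fun i _ => a2 i) (by simp)
  induction F using Finset.induction_on with
  | empty =>
    intro _ ρ h k _
    exact (nb_le_one ρ _ J (Or.inr (by simp))).trans (base _ h k)
  | insert e F he ih =>
    intro hd ρ h k hk
    rw [disjoint_insert_left] at hd
    have heE : e ∉ F ∪ J := by simp [he, hd.1]
    rw [insert_union] at hk ⊢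
    have he1 := h.le_card {e}
    rw [card_singleton] at he1
    have hcon : con ρ e (F ∪ J) = ρ (insert e (F ∪ J)) - ρ {e} := rfl
    have hJe : ∀ I : Finset α, J ⊆ insert e I ↔ J ⊆ I := fun I => subset_insert_iff_of_notMem hd.1
    by_cases h0 : ρ {e} = 0
    · rw [HP_loop h heE h0]
      unfold nb
      rw [sum_ind_loop h heE h0, h.loop_insert h0]
      rw [h.loop_insert h0] at hk
      exact ih hd.2 h k hk
    · have h1 : ρ {e} = 1 := by omega
      have hge : ρ {e} ≤ ρ (insert e (F ∪ J)) := h.mono _ _ (by simp)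
      have hsecond : ∑ I ∈ ind (con ρ e) (F ∪ J),
          (if (insert e I).card = ρ (insert e (F ∪ J)) ∧ J ⊆ insert e I then (1 : ℤ) else 0)
          = nb (con ρ e) (F ∪ J) J := by
        unfold nb
        apply sum_congr rfl
        intro I hI
        have heI : e ∉ I := fun h' => heE ((mem_ind.mp hI).1 h')
        rw [card_insert_of_notMem heI]
        have : (I.card + 1 = ρ (insert e (F ∪ J))) ↔ (I.card = con ρ e (F ∪ J)) := by omega
        simp only [this, hJe]
      by_cases h2 : ρ (insert e (F ∪ J)) = ρ (F ∪ J)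
      · cases k with
        | zero =>
          exact (nb_le_one ρ _ J (Or.inl (by omega))).trans (base _ h 0)
        | succ k =>
          have e1 : nb ρ (insert e (F ∪ J)) J = nb ρ (F ∪ J) J + nb (con ρ e) (F ∪ J) J := by
            rw [← hsecond]
            conv_lhs => unfold nb
            rw [sum_ind_nonloop h heE h1, h2]
            rfl
          rw [e1, HP_gen h heE h1 h2]
          simp only [coeff_add, sum_add_distrib]
          apply add_le_add (ih hd.2 h (k + 1) (by omega))
          rw [sum_range_succ' _ (k + 1)]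
          simp only [coeff_X_mul, mul_coeff_zero, coeff_X_zero, zero_mul, add_zero]
          exact ih hd.2 (h.con_rk e) k (by omega)
      · have e1 : nb ρ (insert e (F ∪ J)) J = nb (con ρ e) (F ∪ J) J := by
          rw [← hsecond]
          conv_lhs => unfold nb
          rw [sum_ind_nonloop h heE h1, sum_eq_zero, zero_add]
          intro I hI
          have h5 := h.mono I _ (mem_ind.mp hI).1
          have h6 := (mem_ind.mp hI).2
          have h7 := h.le_insert e (F ∪ J)
          rw [if_neg]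
          omega
        rw [e1, HP_coloop h heE h1 h2]
        exact ih hd.2 (h.con_rk e) k (by omega)

theorem enestrom_kakeya (a : ℕ → ℝ) (r : ℕ) (h0 : 0 < a 0) (hmono : ∀ i, i < r → a i ≤ a (i + 1))
    (z : ℂ) (hz : ∑ i ∈ range (r + 1), (a i : ℂ) * z ^ i = 0) : ‖z‖ ≤ 1 := by
  by_contra hc
  push Not at hc
  have key : ∀ k, k ≤ r → a 0 ≤ a k ∧
      ‖(1 - z) * (∑ i ∈ range (k + 1), (a i : ℂ) * z ^ i) + a k * z ^ (k + 1)‖ ≤ a k * ‖z‖ ^ k := by
    intro k
    induction k with
    | zero =>
      intro _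
      refine ⟨le_rfl, ?_⟩
      have : (1 - z) * (∑ i ∈ range (0 + 1), (a i : ℂ) * z ^ i) + a 0 * z ^ (0 + 1) = a 0 := by
        simp; ring
      rw [this]
      simp [abs_of_pos h0]
    | succ k ih =>
      intro hk
      obtain ⟨i1, i2⟩ := ih (by omega)
      have hm := hmono k (by omega)
      refine ⟨i1.trans hm, ?_⟩
      have : (1 - z) * (∑ i ∈ range (k + 1 + 1), (a i : ℂ) * z ^ i) + a (k + 1) * z ^ (k + 1 + 1)
          = ((1 - z) * (∑ i ∈ range (k + 1), (a i : ℂ) * z ^ i) + a k * z ^ (k + 1))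
            + ((a (k + 1) - a k : ℝ) : ℂ) * z ^ (k + 1) := by
        rw [sum_range_succ _ (k + 1)]; push_cast; ring
      rw [this]
      refine (norm_add_le _ _).trans ?_
      rw [norm_mul, norm_pow, Complex.norm_real, Real.norm_eq_abs, abs_of_nonneg (by linarith)]
      have h1 : ‖z‖ ^ k ≤ ‖z‖ ^ (k + 1) := pow_le_pow_right₀ hc.le (by omega)
      have h2 : a k * ‖z‖ ^ k ≤ a k * ‖z‖ ^ (k + 1) :=
        mul_le_mul_of_nonneg_left h1 (by linarith)
      linarith
  obtain ⟨k1, k2⟩ := key r le_rfl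
  rw [hz, mul_zero, zero_add, norm_mul, norm_pow, Complex.norm_real, Real.norm_eq_abs,
    abs_of_pos (by linarith)] at k2
  have h1 : ‖z‖ ^ r < ‖z‖ ^ (r + 1) := pow_lt_pow_right₀ hc (by omega)
  have h2 : a r * ‖z‖ ^ r < a r * ‖z‖ ^ (r + 1) := mul_lt_mul_of_pos_left h1 (by linarith)
  linarith

theorem roots_of_mono {ρ : Finset α → ℕ} (h : IsRk ρ) (E : Finset α)
    (hm : ∀ i, i < ρ E → (HP ρ E).coeff i ≤ (HP ρ E).coeff (i + 1)) (z : ℂ)
    (hz : ∑ I ∈ ind ρ E, z ^ I.card * (1 - z) ^ (E.card - I.card) = 0) : ‖z‖ ≤ 1 := by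
  obtain ⟨a1, -, -, a4⟩ := HP_coeff E h
  have e1 : ∑ I ∈ ind ρ E, z ^ I.card * (1 - z) ^ (E.card - I.card)
      = (1 - z) ^ (E.card - ρ E) * aeval z (HP ρ E) := by
    unfold HP
    rw [map_sum, mul_sum]
    apply sum_congr rfl
    intro I hI
    have h5 := h.mono I _ (mem_ind.mp hI).1
    have h6 := (mem_ind.mp hI).2
    have h7 := h.le_card E
    have : E.card - I.card = (E.card - ρ E) + (ρ E - I.card) := by omega
    rw [this]
    simp only [map_mul, map_pow, map_sub, map_one, aeval_X]
    ring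
  rw [e1] at hz
  rcases mul_eq_zero.mp hz with h1 | h1
  · have : z = 1 := by
      have := pow_eq_zero_iff'.mp h1
      exact (sub_eq_zero.mp this.1).symm
    simp [this]
  · have hdeg : (HP ρ E).natDegree < ρ E + 1 := by
      rw [Nat.lt_succ_iff, natDegree_le_iff_coeff_eq_zero]
      exact a4
    rw [aeval_eq_sum_range' hdeg] at h1
    apply enestrom_kakeya (fun i => ((HP ρ E).coeff i : ℝ)) (ρ E) (by simp [a1])
      (fun i hi => by exact_mod_cast hm i hi) z
    rw [← h1]
    apply sum_congr rfl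
    intro i _
    simp

theorem sum_multichoose (N i : ℕ) :
    ∑ j ∈ range (i + 1), N.multichoose j = (N + 1).multichoose i := by
  induction i with
  | zero => simp
  | succ i ih => rw [sum_range_succ, ih, Nat.multichoose_succ_succ, add_comm]

theorem mono_of_bases {ρ : Finset α → ℕ} (h : IsRk ρ) (E : Finset α) (hn : 35 ≤ E.card)
    (hr : 5 * ρ E ≤ 3 * E.card)
    (hb : 17 * E.card.choose (ρ E) ≤ 20 * ((ind ρ E).filter (fun I => I.card = ρ E)).card)
    (i : ℕ) (hi : i < ρ E) : (HP ρ E).coeff i ≤ (HP ρ E).coeff (i + 1) := by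
  obtain ⟨-, -, a3, -⟩ := HP_coeff E h
  set r := ρ E with hrdef
  set n := E.card with hndef
  set B := (ind ρ E).filter (fun I => I.card = r) with hB
  obtain ⟨N, hN⟩ : ∃ N, n = r + N := ⟨n - r, by omega⟩
  have hsum : ∑ J ∈ powersetCard (r - (i + 1)) E, nb ρ E J
      = (B.card : ℤ) * (r.choose (r - (i + 1)) : ℕ) := by
    unfold nb
    rw [sum_comm, hB, card_filter]
    push_cast
    rw [sum_mul]
    apply sum_congr rfl
    intro I hI
    by_cases hc : I.card = r
    · simp only [← hrdef, hc, true_and, if_true, one_mul]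
      rw [← sum_filter, sum_const, nsmul_eq_mul, mul_one]
      have : (powersetCard (r - (i + 1)) E).filter (fun J => J ⊆ I)
          = powersetCard (r - (i + 1)) I := by
        ext J
        simp only [mem_filter, mem_powersetCard]
        constructor
        · rintro ⟨⟨-, h2⟩, h3⟩; exact ⟨h3, h2⟩
        · rintro ⟨h3, h2⟩; exact ⟨⟨h3.trans (mem_ind.mp hI).1, h2⟩, h3⟩
      rw [this, card_powersetCard, hc]
    · simp [← hrdef, hc]
  have hne : (powersetCard (r - (i + 1)) E).Nonempty := by
    rw [← card_pos, card_powersetCard]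
    exact Nat.choose_pos (by omega)
  obtain ⟨J, hJ, hJmax⟩ := exists_max_image _ (fun J => nb ρ E J) hne
  have h1 : (B.card : ℤ) * (r.choose (r - (i + 1)) : ℕ)
      ≤ (n.choose (r - (i + 1)) : ℕ) * nb ρ E J := by
    rw [← hsum]
    have := sum_le_card_nsmul _ _ _ hJmax
    rwa [card_powersetCard, nsmul_eq_mul] at this
  have h2 : n.choose r * r.choose (r - (i + 1))
      = n.choose (r - (i + 1)) * (N + i + 1).choose (i + 1) := by
    rw [Nat.choose_mul (by omega : r - (i + 1) ≤ r)]
    congr 2 <;> omega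
  have hpos : 0 < n.choose (r - (i + 1)) := Nat.choose_pos (by omega)
  have h3 : 17 * ((N + i + 1).choose (i + 1) : ℤ) ≤ 20 * nb ρ E J := by
    have hb' : (17 : ℤ) * (n.choose r : ℕ) ≤ 20 * (B.card : ℤ) := by exact_mod_cast hb
    have h2' : ((n.choose r : ℕ) : ℤ) * (r.choose (r - (i + 1)) : ℕ)
      = (n.choose (r - (i + 1)) : ℕ) * ((N + i + 1).choose (i + 1) : ℕ) := by exact_mod_cast h2
    have hpos' : (0 : ℤ) < (n.choose (r - (i + 1)) : ℕ) := by exact_mod_cast hpos
    have h4 : (0 : ℤ) ≤ (r.choose (r - (i + 1)) : ℕ) := by positivity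
    apply le_of_mul_le_mul_left _ hpos'
    nlinarith
  obtain ⟨hJE, hJc⟩ := mem_powersetCard.mp hJ
  have h4 := nb_le J (E \ J) sdiff_disjoint h (i + 1)
  rw [sdiff_union_of_subset hJE] at h4
  have h5 := h4 (by omega)
  rw [sum_range_succ] at h5
  have hN' : n - r = N := by omega
  have h6 : ∑ j ∈ range (i + 1), (HP ρ E).coeff j ≤ ((N + 1).multichoose i : ℕ) := by
    rw [← sum_multichoose]
    push_cast
    apply sum_le_sum
    intro j _
    have := a3 j
    rwa [hN'] at this
  have h7 := a3 i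
  rw [hN', Nat.multichoose_eq] at h7
  rw [Nat.multichoose_eq] at h6
  have e1 : N + 1 + i - 1 = N + i := by omega
  rw [e1] at h6
  have e2 : (N + i + 1).choose (i + 1) = (N + i).choose i + (N + i).choose (i + 1) :=
    Nat.choose_succ_succ _ _
  have e3 : (N + i).choose (i + 1) * (i + 1) = (N + i).choose i * N := by
    rw [Nat.choose_succ_right_eq]; congr 1; omega
  have e4 : (N + i - 1).choose i * (N + i) = (N + i).choose i * N := by
    have := Nat.choose_mul_succ_eq (N + i - 1) i
    have e5 : N + i - 1 + 1 = N + i := by omega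
    rw [e5] at this
    rw [this]; congr 1; omega
  rw [e2] at h3
  push_cast at h3
  have e3' : (((N + i).choose (i + 1) : ℕ) : ℤ) * (i + 1) = (((N + i).choose i : ℕ) : ℤ) * N := by
    exact_mod_cast e3
  have e4' : (((N + i - 1).choose i : ℕ) : ℤ) * (N + i) = (((N + i).choose i : ℕ) : ℤ) * N := by
    exact_mod_cast e4
  have hd : (0 : ℤ) ≤ (((N + i).choose i : ℕ) : ℤ) := by positivity
  generalize (((N + i - 1).choose i : ℕ) : ℤ) = a at *
  generalize (((N + i).choose (i + 1) : ℕ) : ℤ) = b at *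
  generalize (((N + i).choose i : ℕ) : ℤ) = d at *
  have hN14 : (14 : ℤ) ≤ N := by exact_mod_cast (by omega : 14 ≤ N)
  have hi2 : 2 * ((i : ℤ) + 1) ≤ 3 * N := by exact_mod_cast (by omega : 2 * (i + 1) ≤ 3 * N)
  have hi0 : (0 : ℤ) ≤ i := by positivity
  have key : 20 * a + 3 * d ≤ 17 * b := by
    have hp : (0 : ℤ) < (i + 1) * (N + i) := by positivity
    apply le_of_mul_le_mul_right _ hp
    have e6 : (20 * a + 3 * d) * ((i + 1) * (N + i)) = d * (20 * N * (i + 1) + 3 * ((i + 1) * (N + i))) := by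
      have : (20 * a + 3 * d) * ((i + 1) * (N + i)) = 20 * (a * (N + i)) * (i + 1) + 3 * d * ((i + 1) * (N + i)) := by ring
      rw [this, e4']; ring
    have e7 : 17 * b * ((i + 1) * (N + i)) = d * (17 * N * (N + i)) := by
      have : 17 * b * ((i + 1) * (N + i)) = 17 * (b * (i + 1)) * (N + i) := by ring
      rw [this, e3']; ring
    rw [e6, e7]
    apply mul_le_mul_of_nonneg_left _ hd
    nlinarith
  linarith

end Pool.Agent.Lib.MP_7685df_co
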