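import Pool.Agent.Lib.MP_7685df_co.Johnson

set_option autoImplicit false
set_option linter.unusedSectionVars false

namespace Pool.Agent.Lib.MP_7685df_co

open Finset

variable {α : Type*} [DecidableEq α] [Fintype α]

/-- Elements whose removal leaves a dependent set. -/
def rows (ρ : Finset α → ℕ) (X : Finset α) : Finset α :=
  X.filter (fun x => ρ (X.erase x) + 1 < X.card)

/-- Elements whose addition leaves a non-spanning set. -/
def cols (ρ : Finset α → ℕ) (X : Finset α) : Finset α :=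
  Xᶜ.filter (fun y => ρ (insert y X) < X.card)

theorem exch_iff {ρ : Finset α → ℕ} (h : IsRk ρ) {X : Finset α} (hX : ρ X < X.card) {x y : α}
    (hx : x ∈ X) (hy : y ∉ X) :
    ρ (insert y (X.erase x)) < X.card ↔ x ∈ rows ρ X ∨ y ∈ cols ρ X := by
  simp only [rows, cols, mem_filter, mem_compl, hx, hy, true_and, not_false_eq_true]
  constructor
  · intro h1
    have h2 := h.submod X (insert y (X.erase x))
    have h3 : X ∩ insert y (X.erase x) = X.erase x := by
      ext a; simp only [mem_inter, mem_insert, mem_erase]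
      constructor
      · rintro ⟨h5, rfl | h6⟩
        · exact absurd h5 hy
        · exact h6
      · tauto
    have h4 : X ∪ insert y (X.erase x) = insert y X := by
      ext a; simp only [mem_union, mem_insert, mem_erase]; tauto
    rw [h3, h4] at h2
    omega
  · rintro (h1 | h1)
    · have := h.insert_le y (X.erase x); omega
    · have := h.mono _ _ (insert_subset_insert y (erase_subset x X)); omega

theorem rows_dep {ρ : Finset α → ℕ} (h : IsRk ρ) {X : Finset α} (hX : ρ X + 1 = X.card) :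
    ρ (X \ rows ρ X) < (X \ rows ρ X).card :=
  h.dep X (by omega) (by omega) _ (filter_subset _ _) (fun _ hx => (mem_filter.mp hx).2)

theorem cols_span {ρ : Finset α → ℕ} (h : IsRk ρ) {X : Finset α} (hX : ρ X + 1 = X.card) :
    ρ (X ∪ cols ρ X) = ρ X := by
  apply h.span
  intro y hy
  have h1 := (mem_filter.mp hy).2
  have h2 := h.le_insert y X
  omega

/-- Sets forced to be dependent by a list of ranks. -/
def Cov (Z : Finset (Finset α × ℕ)) (X : Finset α) : Prop := ∃ p ∈ Z, p.2 < (X ∩ p.1).card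

instance (Z : Finset (Finset α × ℕ)) : DecidablePred (Cov Z) := fun X =>
  inferInstanceAs (Decidable (∃ p ∈ Z, p.2 < (X ∩ p.1).card))

theorem local_cover {ρ : Finset α → ℕ} (h : IsRk ρ) {X Y : Finset α} (hX : ρ X < X.card)
    (hadj : Adj X Y) (hY : ρ Y < X.card) (Z : Finset (Finset α × ℕ)) (h1 : (X, ρ X) ∈ Z)
    (h2 : (X \ rows ρ X, ρ (X \ rows ρ X)) ∈ Z) (h3 : (X ∪ cols ρ X, ρ (X ∪ cols ρ X)) ∈ Z) :
    Cov Z Y := by
  by_cases hc : ρ X + 1 = X.card
  · obtain ⟨x, hx, y, hy, rfl⟩ := adj_iff.mp hadj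
    rcases (exch_iff h hX hx hy).mp hY with h4 | h4
    · refine ⟨_, h2, ?_⟩
      rw [inter_eq_right.mpr]
      · exact rows_dep h hc
      · intro a ha
        rw [mem_sdiff] at ha
        exact mem_insert_of_mem (mem_erase.mpr ⟨fun e => ha.2 (e ▸ h4), ha.1⟩)
    · refine ⟨_, h3, ?_⟩
      rw [inter_eq_left.mpr]
      · simp only [cols_span h hc, card_exch hx hy]; exact hX
      · apply insert_subset (mem_union_right _ h4)
        exact (erase_subset _ _).trans subset_union_left
  · refine ⟨_, h1, ?_⟩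
    have c1 := card_sdiff_add_card_inter X Y
    have c2 := hadj.1
    rw [inter_comm]
    simp only
    omega

/-- The rank functions compatible with the data. -/
structure Cls (r : ℕ) (A : Finset (Finset α)) (Z : Finset (Finset α × ℕ))
    (ρ : Finset α → ℕ) : Prop where
  rk : IsRk ρ
  top : ρ univ = r
  val : ∀ p ∈ Z, ρ p.1 = p.2
  cov : ∀ X, X.card = r → ρ X < r → Cov Z X ∨ X ∈ A

/-- Good data. -/
structure Ctx (r θ : ℕ) (A : Finset (Finset α)) (Z : Finset (Finset α × ℕ)) : Prop where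
  card : ∀ X ∈ A, X.card = r
  deg : ∀ X ∈ A, (A.filter (fun Y => Adj X Y)).card < θ
  unc : ∀ X ∈ A, ¬ Cov Z X
  small : ∀ F : Finset α, F.card ≤ θ → ∃ k, (F, k) ∈ Z
  cosmall : ∀ F : Finset α, Fᶜ.card ≤ θ → ∃ k, (F, k) ∈ Z

variable {r θ : ℕ} {A : Finset (Finset α)} {Z : Finset (Finset α × ℕ)} {ρ ρ' : Finset α → ℕ}

theorem Cls.le (h : Cls r A Z ρ) (X : Finset α) : ρ X ≤ r :=
  h.top ▸ h.rk.mono _ _ (subset_univ _)

theorem Cls.of_cov (h : Cls r A Z ρ) {X : Finset α} (hX : Cov Z X) : ρ X < X.card := by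
  obtain ⟨p, hp, h1⟩ := hX
  exact h.rk.dep_of_inter (F := p.1) (by rw [h.val p hp]; exact h1)

theorem Cls.diff (h : Cls r A Z ρ) (h' : Cls r A Z ρ') {Y : Finset α} (hY : Y.card = r)
    (h1 : ρ Y < r) (h2 : ¬ ρ' Y < r) : Y ∈ A := by
  rcases h.cov Y hY h1 with h3 | h3
  · have := h'.of_cov h3; omega
  · exact h3

theorem card_le_of_row {X : Finset α} {x : α} (hx : x ∈ X) (D : Finset α) (U : Finset (Finset α))
    (hD : ∀ z ∈ D, z ∉ X ∧ insert z (X.erase x) ∈ U) :
    D.card ≤ (U.filter (fun Y => Adj X Y)).card := by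
  apply card_le_card_of_injOn (fun z => insert z (X.erase x))
  · intro z hz
    exact mem_coe.mpr (mem_filter.mpr ⟨(hD z hz).2, adj_mk hx (hD z hz).1⟩)
  · intro z hz w hw e
    simp only at e
    have : z ∈ insert w (X.erase x) := e ▸ mem_insert_self _ _
    rcases mem_insert.mp this with h | h
    · exact h
    · exact absurd (mem_of_mem_erase h) (hD z hz).1

theorem card_le_of_col {X : Finset α} {y : α} (hy : y ∉ X) (D : Finset α) (U : Finset (Finset α))
    (hD : ∀ s ∈ D, s ∈ X ∧ insert y (X.erase s) ∈ U) :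
    D.card ≤ (U.filter (fun Y => Adj X Y)).card := by
  apply card_le_card_of_injOn (fun s => insert y (X.erase s))
  · intro z hz
    exact mem_coe.mpr (mem_filter.mpr ⟨(hD z hz).2, adj_mk (hD z hz).1 hy⟩)
  · intro z hz w hw e
    simp only at e
    by_contra hne
    have h1 : z ∈ insert y (X.erase w) := mem_insert_of_mem (mem_erase.mpr ⟨hne, (hD z hz).1⟩)
    rw [← e] at h1
    rcases mem_insert.mp h1 with h | h
    · exact hy (h ▸ (hD z hz).1)
    · simp at h

theorem step (c : Ctx r θ A Z) (h : Cls r A Z ρ) (h' : Cls r A Z ρ') {X Y : Finset α}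
    (hX : X ∈ A) (h1 : ρ X < r) (h2 : ρ' X < r) (hadj : Adj X Y) (h3 : ρ' Y < r) : ρ Y < r := by
  by_contra hc
  have hXr := c.card X hX
  obtain ⟨x, hx, y, hy, rfl⟩ := adj_iff.mp hadj
  have k1 := (exch_iff h.rk (hXr ▸ h1) hx hy).not.mp (hXr ▸ hc)
  push Not at k1
  have hr : ρ X + 1 = X.card := by
    have e1 : ¬ ρ (X.erase x) + 1 < X.card := fun e => k1.1 (mem_filter.mpr ⟨hx, e⟩)
    have := h.rk.erase_le x X
    omega
  rcases (exch_iff h'.rk (hXr ▸ h2) hx hy).mp (hXr ▸ h3) with h4 | h4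
  · have e1 := card_le_of_row hx (X ∪ cols ρ X)ᶜ A (by
      intro z hz
      rw [mem_compl, mem_union, not_or] at hz
      refine ⟨hz.1, h'.diff h (by rw [card_exch hx hz.1, hXr]) ?_ ?_⟩
      · exact hXr ▸ (exch_iff h'.rk (hXr ▸ h2) hx hz.1).mpr (Or.inl h4)
      · rw [← hXr, exch_iff h.rk (hXr ▸ h1) hx hz.1]
        tauto)
    have e2 := c.deg X hX
    obtain ⟨k, hk⟩ := c.cosmall (X ∪ cols ρ X) (by omega)
    apply c.unc X hX
    refine ⟨_, hk, ?_⟩
    have e3 := h.val _ hk
    simp only [cols_span h.rk hr] at e3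
    simp only [inter_eq_left.mpr subset_union_left]
    omega
  · have e1 := card_le_of_col hy (X \ rows ρ X) A (by
      intro z hz
      rw [mem_sdiff] at hz
      refine ⟨hz.1, h'.diff h (by rw [card_exch hz.1 hy, hXr]) ?_ ?_⟩
      · exact hXr ▸ (exch_iff h'.rk (hXr ▸ h2) hz.1 hy).mpr (Or.inr h4)
      · rw [← hXr, exch_iff h.rk (hXr ▸ h1) hz.1 hy]
        tauto)
    have e2 := c.deg X hX
    obtain ⟨k, hk⟩ := c.small (X \ rows ρ X) (by omega)
    apply c.unc X hX
    refine ⟨_, hk, ?_⟩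
    have e3 := h.val _ hk
    have e4 := rows_dep h.rk hr
    simp only [inter_eq_right.mpr sdiff_subset] at e3 ⊢
    omega

open Classical in
/-- Undetermined nonbases. -/
noncomputable def Und (r : ℕ) (A : Finset (Finset α)) (Z : Finset (Finset α × ℕ))
    (ρ : Finset α → ℕ) : Finset (Finset α) :=
  A.filter (fun X => ρ X < r ∧ ∃ ρ', Cls r A Z ρ' ∧ ¬ ρ' X < r)

theorem mem_Und {X : Finset α} :
    X ∈ Und r A Z ρ ↔ X ∈ A ∧ ρ X < r ∧ ∃ ρ', Cls r A Z ρ' ∧ ¬ ρ' X < r := by
  simp [Und]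

theorem mem_Und_of (h : Cls r A Z ρ) (h' : Cls r A Z ρ') {Y : Finset α} (hY : Y.card = r)
    (h1 : ρ Y < r) (h2 : ¬ ρ' Y < r) : Y ∈ Und r A Z ρ :=
  mem_Und.mpr ⟨h.diff h' hY h1 h2, h1, ρ', h', h2⟩

theorem decode (c : Ctx r θ A Z) (h : Cls r A Z ρ) (h' : Cls r A Z ρ') (T : Finset (Finset α))
    (hT : ∀ b ∈ Und r A Z ρ, ∃ a ∈ T, Relation.ReflTransGen
      (fun x y => x ∈ Und r A Z ρ ∧ y ∈ Und r A Z ρ ∧ Adj x y) a b)
    (hT' : ∀ a ∈ T, ρ' a < r) (X : Finset α) (hX : X.card = r) (h1 : ρ X < r) : ρ' X < r := by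
  by_contra hc
  obtain ⟨a, ha, hab⟩ := hT X (mem_Und_of h h' hX h1 hc)
  have key : ∀ b, Relation.ReflTransGen
      (fun x y => x ∈ Und r A Z ρ ∧ y ∈ Und r A Z ρ ∧ Adj x y) a b → ρ' b < r := by
    intro b hb
    induction hb with
    | refl => exact hT' a ha
    | tail _ h2 ih =>
      exact step c h' h (mem_Und.mp h2.1).1 ih (mem_Und.mp h2.1).2.1 h2.2.2 (mem_Und.mp h2.2.1).2.1
  exact hc (key X hab)

theorem eq_of_nonbases (h : Cls r A Z ρ) (h' : Cls r A Z ρ')
    (h1 : ∀ X : Finset α, X.card = r → ρ X < r → ρ' X < r)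
    (h2 : ∀ X : Finset α, X.card = r → ρ' X < r → ρ X < r) : ρ = ρ' := by
  funext X
  apply le_antisymm
  · apply h.rk.le_of_bases h'.rk
    intro B hB1 hB2
    rw [h.top] at hB1
    have := h2 B hB1
    have := h'.le B
    omega
  · apply h'.rk.le_of_bases h.rk
    intro B hB1 hB2
    rw [h'.top] at hB1
    have := h1 B hB1
    have := h.le B
    omega

theorem col_bound (c : Ctx r θ A Z) (h : Cls r A Z ρ) (h' : Cls r A Z ρ') {g : ℕ}
    (hg : ∀ F : Finset α, F.card ≤ g → ρ F = F.card) {X : Finset α} (hX : X ∈ A)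
    (h2 : ¬ ρ' X < r) {y : α} (hy : y ∈ cols ρ X) :
    g ≤ (X.filter (fun s => insert y (X.erase s) ∈ Und r A Z ρ)).card := by
  have hXr := c.card X hX
  have hy' := mem_filter.mp hy
  have hyX : y ∉ X := mem_compl.mp hy'.1
  set S := X.filter (fun s => ¬ ρ' (insert y (X.erase s)) < r) with hS
  have hsub : ∀ s ∈ S, s ∈ X ∧ insert y (X.erase s) ∈ Und r A Z ρ := by
    intro s hs
    rw [hS, mem_filter] at hs
    refine ⟨hs.1, mem_Und_of h h' (by rw [card_exch hs.1 hyX, hXr]) ?_ hs.2⟩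
    have := h.rk.mono _ _ (insert_subset_insert y (erase_subset s X))
    omega
  have e1 := card_le_of_col hyX S A (fun s hs => ⟨(hsub s hs).1, (mem_Und.mp (hsub s hs).2).1⟩)
  have e2 := c.deg X hX
  have e3 := card_insert_of_notMem hyX
  have e4 := h'.le (insert y X)
  have e5 := h'.rk.le_insert y X
  have e6 := h'.rk.dep (insert y X) (by omega) (by omega) (X \ S)
    (sdiff_subset.trans (subset_insert _ _)) (by
      intro x hx
      rw [mem_sdiff, hS, mem_filter] at hx
      have hxy : y ≠ x := fun e => hyX (e ▸ hx.1)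
      rw [erase_insert_of_ne hxy]
      have : ρ' (insert y (X.erase x)) < r := by
        by_contra hc; exact hx.2 ⟨hx.1, hc⟩
      omega)
  have e7 : insert y X \ (X \ S) = insert y S := by
    ext a
    have : a ∈ S → a ∈ X := fun h => (mem_filter.mp h).1
    simp only [mem_sdiff, mem_insert]
    constructor
    · tauto
    · rintro (rfl | h)
      · tauto
      · tauto
  rw [e7] at e6
  have e8 : (insert y S).card = S.card + 1 :=
    card_insert_of_notMem (fun h => hyX (mem_filter.mp h).1)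
  obtain ⟨k, hk⟩ := c.small (insert y S) (by omega)
  have e9 := h.val _ hk
  have e10 := h'.val _ hk
  simp only at e9 e10
  have e11 : g ≤ S.card := by
    by_contra hc
    have := hg (insert y S) (by omega)
    omega
  refine e11.trans (card_le_card ?_)
  intro s hs
  exact mem_filter.mpr (hsub s hs)

theorem row_bound (c : Ctx r θ A Z) (h : Cls r A Z ρ) (h' : Cls r A Z ρ') {g : ℕ}
    (hg : ∀ F : Finset α, Fᶜ.card ≤ g → ρ F = r) {X : Finset α} (hX : X ∈ A)
    (h2 : ¬ ρ' X < r) {x : α} (hx : x ∈ rows ρ X) :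
    g ≤ (Xᶜ.filter (fun z => insert z (X.erase x) ∈ Und r A Z ρ)).card := by
  have hXr := c.card X hX
  have hx' := mem_filter.mp hx
  have hxX : x ∈ X := hx'.1
  set S := Xᶜ.filter (fun z => ¬ ρ' (insert z (X.erase x)) < r) with hS
  have hsub : ∀ s ∈ S, s ∉ X ∧ insert s (X.erase x) ∈ Und r A Z ρ := by
    intro s hs
    rw [hS, mem_filter, mem_compl] at hs
    refine ⟨hs.1, mem_Und_of h h' (by rw [card_exch hxX hs.1, hXr]) ?_ hs.2⟩
    have := h.rk.insert_le s (X.erase x)
    omega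
  have e1 := card_le_of_row hxX S A (fun s hs => ⟨(hsub s hs).1, (mem_Und.mp (hsub s hs).2).1⟩)
  have e2 := c.deg X hX
  have e3 := card_erase_of_mem hxX
  have e4 := h'.rk.le_card (X.erase x)
  have e5 := h'.rk.le_erase x X
  have e6 := h'.rk.span (X.erase x) (Xᶜ \ S) (by
      intro z hz
      rw [mem_sdiff, hS, mem_filter] at hz
      have : ρ' (insert z (X.erase x)) < r := by
        by_contra hc; exact hz.2 ⟨hz.1, hc⟩
      have := h'.rk.le_insert z (X.erase x)
      omega)
  have e7 : (X.erase x ∪ Xᶜ \ S)ᶜ = insert x S := by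
    ext a
    have : a ∈ S → a ∉ X := fun h => mem_compl.mp (mem_filter.mp h).1
    simp only [mem_sdiff, mem_insert, mem_compl, mem_union, mem_erase]
    constructor
    · tauto
    · rintro (rfl | h)
      · tauto
      · tauto
  have e8 : (insert x S).card = S.card + 1 :=
    card_insert_of_notMem (fun h => mem_compl.mp (mem_filter.mp h).1 hxX)
  obtain ⟨k, hk⟩ := c.cosmall (X.erase x ∪ Xᶜ \ S) (by rw [e7]; omega)
  have e9 := h.val _ hk
  have e10 := h'.val _ hk
  simp only at e9 e10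
  have e11 : g ≤ S.card := by
    by_contra hc
    have := hg (X.erase x ∪ Xᶜ \ S) (by rw [e7]; omega)
    omega
  refine e11.trans (card_le_card ?_)
  intro s hs
  exact mem_filter.mpr ⟨mem_compl.mpr (hsub s hs).1, (hsub s hs).2⟩

theorem exch_inj {X : Finset α} {x y x' y' : α} (hx : x ∈ X) (hy : y ∉ X)
    (e : insert y (X.erase x) = insert y' (X.erase x')) : x = x' ∧ y = y' := by
  constructor
  · by_contra hne
    have h1 : x ∈ insert y' (X.erase x') := mem_insert_of_mem (mem_erase.mpr ⟨hne, hx⟩)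
    rw [← e] at h1
    rcases mem_insert.mp h1 with h | h
    · exact hy (h ▸ hx)
    · simp at h
  · have : y ∈ insert y' (X.erase x') := e ▸ mem_insert_self _ _
    rcases mem_insert.mp this with h | h
    · exact h
    · exact absurd (mem_of_mem_erase h) hy

theorem block_one (c : Ctx r θ A Z) (h : Cls r A Z ρ) {g : ℕ}
    (hg : ∀ F : Finset α, F.card ≤ g → ρ F = F.card)
    (hg' : ∀ F : Finset α, Fᶜ.card ≤ g → ρ F = r) {X : Finset α} (hX : X ∈ Und r A Z ρ)
    (G : Finset (Finset α)) (hG : ∀ Y ∈ G, ρ Y < r) :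
    g * (G.filter (fun Y => Adj X Y)).card
      ≤ Fintype.card α * ((Und r A Z ρ).filter (fun Y => Adj X Y)).card := by
  obtain ⟨hXA, h1, ρ', h', h2⟩ := mem_Und.mp hX
  have hXr := c.card X hXA
  have e1 : g * (cols ρ X).card ≤ ((Und r A Z ρ).filter (fun Y => Adj X Y)).card := by
    calc g * (cols ρ X).card = ∑ _y ∈ cols ρ X, g := by rw [sum_const, smul_eq_mul, mul_comm]
      _ ≤ ((cols ρ X).sigma
            (fun y => X.filter (fun s => insert y (X.erase s) ∈ Und r A Z ρ))).card := by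
          rw [card_sigma]
          exact sum_le_sum (fun y hy => col_bound c h h' hg hXA h2 hy)
      _ ≤ _ := by
          apply card_le_card_of_injOn (fun p => insert p.1 (X.erase p.2))
          · rintro ⟨y, s⟩ hp
            simp only [coe_sigma, Set.mem_sigma_iff, mem_coe, mem_filter, cols, mem_compl] at hp
            exact mem_coe.mpr (mem_filter.mpr ⟨hp.2.2, adj_mk hp.2.1 hp.1.1⟩)
          · rintro ⟨y, s⟩ hp ⟨y', s'⟩ hp' e
            simp only [coe_sigma, Set.mem_sigma_iff, mem_coe, mem_filter, cols, mem_compl] at hp hp'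
            obtain ⟨rfl, rfl⟩ := exch_inj hp.2.1 hp.1.1 e
            rfl
  have e2 : g * (rows ρ X).card ≤ ((Und r A Z ρ).filter (fun Y => Adj X Y)).card := by
    calc g * (rows ρ X).card = ∑ _y ∈ rows ρ X, g := by rw [sum_const, smul_eq_mul, mul_comm]
      _ ≤ ((rows ρ X).sigma
            (fun x => Xᶜ.filter (fun z => insert z (X.erase x) ∈ Und r A Z ρ))).card := by
          rw [card_sigma]
          exact sum_le_sum (fun x hx => row_bound c h h' hg' hXA h2 hx)
      _ ≤ _ := by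
          apply card_le_card_of_injOn (fun p => insert p.2 (X.erase p.1))
          · rintro ⟨x, z⟩ hp
            simp only [coe_sigma, Set.mem_sigma_iff, mem_coe, mem_filter, rows, mem_compl] at hp
            exact mem_coe.mpr (mem_filter.mpr ⟨hp.2.2, adj_mk hp.1.1 hp.2.1⟩)
          · rintro ⟨y, s⟩ hp ⟨y', s'⟩ hp' e
            simp only [coe_sigma, Set.mem_sigma_iff, mem_coe, mem_filter, rows, mem_compl] at hp hp'
            obtain ⟨rfl, rfl⟩ := exch_inj hp.1.1 hp.2.1 e
            rfl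
  have e3 : (G.filter (fun Y => Adj X Y)).card
      ≤ (rows ρ X).card * Xᶜ.card + X.card * (cols ρ X).card := by
    rw [← card_product, ← card_product]
    refine le_trans ?_ (card_union_le _ _)
    refine le_trans (card_le_card ?_) (card_image_le (f := fun p : α × α => insert p.2 (X.erase p.1)))
    intro Y hY
    rw [mem_filter] at hY
    obtain ⟨x, hx, y, hy, rfl⟩ := adj_iff.mp hY.2
    refine mem_image.mpr ⟨(x, y), ?_, rfl⟩
    rcases (exch_iff h.rk (hXr ▸ h1) hx hy).mp (hXr ▸ hG _ hY.1) with h4 | h4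
    · exact mem_union_left _ (mem_product.mpr ⟨h4, mem_compl.mpr hy⟩)
    · exact mem_union_right _ (mem_product.mpr ⟨hx, h4⟩)
  rw [← card_add_card_compl X]
  nlinarith [Nat.mul_le_mul_left X.card e1, Nat.mul_le_mul_left Xᶜ.card e2,
    Nat.mul_le_mul_left g e3]

end Pool.Agent.Lib.MP_7685df_co
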