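import Pool.Agent.Lib.MP_7685df_co.Rk

set_option autoImplicit false

namespace Pool.Agent.Lib.MP_7685df_co

open Finset

section Graph

variable {β : Type*} [DecidableEq β]

/-- Sapozhenko container. -/
def cont (R : β → β → Prop) [DecidableRel R] (P S : Finset β) (D : ℕ) : Finset β :=
  P.filter (fun v => (¬ ∃ s ∈ S, R s v) ∧ (P.filter (fun u => R v u ∧ ¬ ∃ s ∈ S, R s u)).card < D)

omit [DecidableEq β] in
theorem cont_subset (R : β → β → Prop) [DecidableRel R] (P S : Finset β) (D : ℕ) :
    cont R P S D ⊆ P := filter_subset _ _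

omit [DecidableEq β] in
theorem cont_deg (R : β → β → Prop) [DecidableRel R] (P S : Finset β) (D : ℕ) (v : β)
    (hv : v ∈ cont R P S D) : ((cont R P S D).filter (fun u => R v u)).card < D := by
  refine lt_of_le_of_lt (card_le_card ?_) (mem_filter.mp hv).2.2
  intro u hu
  simp only [cont, mem_filter] at hu ⊢
  exact ⟨hu.1.1, hu.2, hu.1.2.1⟩

theorem exists_cont (R : β → β → Prop) [DecidableRel R] (P K : Finset β) (D : ℕ) (hD : 0 < D) :
    ∃ S, S ⊆ K ∧ S.card * D ≤ P.card ∧
      ∀ X ∈ K, X ∈ P → (∃ s ∈ S, R s X) ∨ X ∈ cont R P S D := by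
  obtain ⟨S, hS, hmax⟩ := exists_max_image
    (K.powerset.filter (fun S => S.card * D ≤ (P.filter (fun u => ∃ s ∈ S, R s u)).card)) card
    ⟨∅, by simp⟩
  simp only [mem_filter, mem_powerset] at hS hmax
  refine ⟨S, hS.1, hS.2.trans (card_filter_le _ _), fun X hXK hXP => ?_⟩
  by_cases h1 : ∃ s ∈ S, R s X
  · exact Or.inl h1
  right
  simp only [cont, mem_filter]
  refine ⟨hXP, h1, ?_⟩
  by_cases hXS : X ∈ S
  · have : P.filter (fun u => R X u ∧ ¬ ∃ s ∈ S, R s u) = ∅ := by
      apply filter_eq_empty_iff.mpr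
      rintro u - ⟨h2, h3⟩
      exact h3 ⟨X, hXS, h2⟩
    rw [this]; simpa using hD
  · by_contra hc
    push Not at hc
    have h2 : P.filter (fun u => ∃ s ∈ insert X S, R s u) =
        P.filter (fun u => ∃ s ∈ S, R s u) ∪ P.filter (fun u => R X u ∧ ¬ ∃ s ∈ S, R s u) := by
      ext u
      simp only [mem_filter, mem_union, mem_insert, exists_eq_or_imp]
      by_cases h5 : ∃ a ∈ S, R a u <;> simp only [h5] <;> tauto
    have h3 : Disjoint (P.filter (fun u => ∃ s ∈ S, R s u))
        (P.filter (fun u => R X u ∧ ¬ ∃ s ∈ S, R s u)) := by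
      rw [disjoint_left]
      intro u hu1 hu2
      exact (mem_filter.mp hu2).2.2 (mem_filter.mp hu1).2
    have h4 := hmax (insert X S) ⟨insert_subset hXK hS.1, by
      rw [h2, card_union_of_disjoint h3, card_insert_of_notMem hXS]
      have := hS.2
      simp only [not_exists, not_and] at hc ⊢
      nlinarith⟩
    rw [card_insert_of_notMem hXS] at h4
    omega

/-- Representatives of connected components, with a preference for `P`. -/
theorem exists_reps [Fintype β] (R : β → β → Prop) (hsym : ∀ a b, R a b → R b a)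
    (U P : Finset β) :
    ∃ T, T ⊆ U ∧
      (∀ a ∈ T, ∀ b ∈ T, R a b → a = b) ∧
      (∀ a ∈ T, ∀ b ∈ T, ∀ c ∈ U, R a c → R b c → a = b) ∧
      (∀ b ∈ U, ∃ a ∈ T, Relation.ReflTransGen (fun x y => x ∈ U ∧ y ∈ U ∧ R x y) a b) ∧
      (∀ a ∈ T, ∀ b ∈ U, b ∈ P → R a b → a ∈ P) := by
  classical
  set Q := Relation.ReflTransGen (fun x y => x ∈ U ∧ y ∈ U ∧ R x y) with hQ
  have hQsym : ∀ a b, Q a b → Q b a := by
    intro a b hab
    induction hab with
    | refl => exact Relation.ReflTransGen.refl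
    | tail _ h ih => exact Relation.ReflTransGen.head ⟨h.2.1, h.1, hsym _ _ h.2.2⟩ ih
  let e := Fintype.equivFin β
  let f : β → ℕ := fun a => (if a ∈ P then 0 else Fintype.card β) + (e a).val
  have hf : Function.Injective f := by
    intro a b hab
    have h1 := (e a).2
    have h2 := (e b).2
    apply e.injective
    apply Fin.ext
    simp only [f] at hab
    split_ifs at hab <;> omega
  have key : ∀ a ∈ U.filter (fun a => ∀ b ∈ U, Q a b → f a ≤ f b),
      ∀ b ∈ U.filter (fun a => ∀ b ∈ U, Q a b → f a ≤ f b), Q a b → a = b := by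
    intro a ha b hb hab
    rw [mem_filter] at ha hb
    exact hf (le_antisymm (ha.2 b hb.1 hab) (hb.2 a ha.1 (hQsym _ _ hab)))
  refine ⟨U.filter (fun a => ∀ b ∈ U, Q a b → f a ≤ f b), filter_subset _ _, ?_, ?_, ?_, ?_⟩
  · intro a ha b hb hab
    exact key a ha b hb (Relation.ReflTransGen.single
      ⟨(mem_filter.mp ha).1, (mem_filter.mp hb).1, hab⟩)
  · intro a ha b hb c hc hac hbc
    exact key a ha b hb (Relation.ReflTransGen.tail (Relation.ReflTransGen.single
      ⟨(mem_filter.mp ha).1, hc, hac⟩) ⟨hc, (mem_filter.mp hb).1, hsym _ _ hbc⟩)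
  · intro b hb
    obtain ⟨a, ha, hmin⟩ := exists_min_image (U.filter (fun a => Q a b)) f
      ⟨b, mem_filter.mpr ⟨hb, Relation.ReflTransGen.refl⟩⟩
    rw [mem_filter] at ha
    refine ⟨a, mem_filter.mpr ⟨ha.1, fun c hc hac => hmin c (mem_filter.mpr ⟨hc, ?_⟩)⟩, ha.2⟩
    exact (hQsym _ _ hac).trans ha.2
  · intro a ha b hb hbP hab
    rw [mem_filter] at ha
    have h1 := ha.2 b hb (Relation.ReflTransGen.single ⟨ha.1, hb, hab⟩)
    by_contra hc
    have h2 := (e b).2
    simp only [f, if_pos hbP, if_neg hc] at h1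
    omega

end Graph

variable {α : Type*} [DecidableEq α]

/-- Adjacency in the Johnson graph. -/
def Adj (X Y : Finset α) : Prop := (X \ Y).card = 1 ∧ (Y \ X).card = 1

instance : DecidableRel (Adj (α := α)) := fun X Y =>
  inferInstanceAs (Decidable ((X \ Y).card = 1 ∧ (Y \ X).card = 1))

theorem Adj.symm {X Y : Finset α} (h : Adj X Y) : Adj Y X := ⟨h.2, h.1⟩

theorem not_adj_self (X : Finset α) : ¬ Adj X X := by simp [Adj]

theorem adj_iff {X Y : Finset α} :
    Adj X Y ↔ ∃ x ∈ X, ∃ y, y ∉ X ∧ Y = insert y (X.erase x) := by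
  constructor
  · rintro ⟨h1, h2⟩
    obtain ⟨x, hx⟩ := card_eq_one.mp h1
    obtain ⟨y, hy⟩ := card_eq_one.mp h2
    have hx' : ∀ a, a ∈ X \ Y ↔ a = x := fun a => by rw [hx, mem_singleton]
    have hy' : ∀ a, a ∈ Y \ X ↔ a = y := fun a => by rw [hy, mem_singleton]
    simp only [mem_sdiff] at hx' hy'
    refine ⟨x, ((hx' x).mpr rfl).1, y, ((hy' y).mpr rfl).2, ?_⟩
    ext a
    have k1 := hx' a
    have k2 := hy' a
    have k3 := (hx' x).mpr rfl
    have k4 := (hy' y).mpr rfl
    simp only [mem_insert, mem_erase]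
    constructor
    · intro haY
      by_cases haX : a ∈ X
      · exact Or.inr ⟨fun h => k3.2 (h ▸ haY), haX⟩
      · exact Or.inl (k2.mp ⟨haY, haX⟩)
    · rintro (rfl | ⟨h1, h2⟩)
      · exact k4.1
      · by_contra h3
        exact h1 (k1.mp ⟨h2, h3⟩)
  · rintro ⟨x, hx, y, hy, rfl⟩
    have hxy : x ≠ y := fun h => hy (h ▸ hx)
    constructor
    · rw [card_eq_one]
      refine ⟨x, ?_⟩
      ext a
      simp only [mem_sdiff, mem_insert, mem_erase, mem_singleton]
      constructor
      · rintro ⟨h1, h2⟩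
        by_contra h3
        exact h2 (Or.inr ⟨h3, h1⟩)
      · rintro rfl
        exact ⟨hx, by tauto⟩
    · rw [card_eq_one]
      refine ⟨y, ?_⟩
      ext a
      simp only [mem_sdiff, mem_insert, mem_erase, mem_singleton]
      constructor
      · tauto
      · rintro rfl
        exact ⟨Or.inl rfl, hy⟩

theorem adj_mk {X : Finset α} {x y : α} (hx : x ∈ X) (hy : y ∉ X) :
    Adj X (insert y (X.erase x)) := adj_iff.mpr ⟨x, hx, y, hy, rfl⟩

theorem card_exch {X : Finset α} {x y : α} (hx : x ∈ X) (hy : y ∉ X) :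
    (insert y (X.erase x)).card = X.card := by
  rw [card_insert_of_notMem (by simp [hy]), card_erase_of_mem hx]
  have : 0 < X.card := card_pos.mpr ⟨x, hx⟩
  omega

theorem adj_of_inter {X Y : Finset α} {r : ℕ} (hX : X.card = r) (hY : Y.card = r)
    (hne : X ≠ Y) (h : r ≤ (X ∩ Y).card + 1) : Adj X Y := by
  have h1 := card_sdiff_add_card_inter X Y
  have h2 := card_sdiff_add_card_inter Y X
  rw [inter_comm] at h2
  have h3 : (X \ Y).card ≠ 0 := by
    intro h0
    rw [card_eq_zero, sdiff_eq_empty_iff_subset] at h0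
    exact hne (eq_of_subset_of_card_le h0 (by omega))
  constructor <;> omega

/-- Clique counting in the Johnson graph. -/
theorem clique_count (A Ds : Finset (Finset α)) (r k θ : ℕ) (hD : ∀ D ∈ Ds, D.card + 1 = r)
    (hA : ∀ X ∈ A, X.card = r) (hk : ∀ X ∈ A, (Ds.filter (fun D => D ⊆ X)).card = k)
    (hdeg : ∀ X ∈ A, (A.filter (fun Y => Adj X Y)).card < θ) :
    k ^ 2 * A.card ≤ Ds.card * (k + θ) := by
  set q : Finset α → ℕ := fun D => (A.filter (fun X => D ⊆ X)).card with hq
  have h1 : ∑ D ∈ Ds, q D = k * A.card := by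
    simp only [hq, card_filter]
    rw [sum_comm]
    simp only [← card_filter]
    rw [sum_congr rfl hk, sum_const, smul_eq_mul, mul_comm]
  have h2 : ∑ D ∈ Ds, q D ^ 2 ≤ A.card * (k + θ) := by
    have e1 : ∑ D ∈ Ds, q D ^ 2
        = ∑ X ∈ A, ∑ Y ∈ A, (Ds.filter (fun D => D ⊆ X ∧ D ⊆ Y)).card := by
      simp only [hq, card_filter, sq, sum_mul_sum]
      rw [sum_comm]
      apply sum_congr rfl
      intro X _
      rw [sum_comm]
      apply sum_congr rfl
      intro Y _
      apply sum_congr rfl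
      intro D _
      by_cases h1 : D ⊆ X <;> by_cases h2 : D ⊆ Y <;> simp [h1, h2]
    rw [e1, ← smul_eq_mul, ← sum_const]
    apply sum_le_sum
    intro X hX
    have e2 : ∀ Y ∈ A, (Ds.filter (fun D => D ⊆ X ∧ D ⊆ Y)).card
        ≤ (if Y = X then k else 0) + (if Adj X Y then 1 else 0) := by
      intro Y hY
      by_cases hYX : Y = X
      · subst hYX
        simp only [and_self, if_true, hk Y hY]
        omega
      · rw [if_neg hYX, zero_add]
        split_ifs with hadj
        · rw [card_le_one]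
          intro D1 h1 D2 h2
          rw [mem_filter] at h1 h2
          have c1 := card_sdiff_add_card_inter X Y
          have c2 := hadj.1
          have c3 := hA X hX
          have c4 := hD D1 h1.1
          have c5 := hD D2 h2.1
          rw [eq_of_subset_of_card_le (subset_inter h1.2.1 h1.2.2) (by omega),
            eq_of_subset_of_card_le (subset_inter h2.2.1 h2.2.2) (by omega)]
        · rw [Nat.le_zero, card_eq_zero, filter_eq_empty_iff]
          rintro D hD1 ⟨h1, h2⟩
          apply hadj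
          have c1 := card_le_card (subset_inter h1 h2)
          have c2 := hD D hD1
          exact adj_of_inter (hA X hX) (hA Y hY) (Ne.symm hYX) (by omega)
    refine (sum_le_sum e2).trans ?_
    rw [sum_add_distrib, sum_ite_eq' A X, if_pos hX, ← card_filter]
    have := hdeg X hX
    omega
  have h3 : (∑ D ∈ Ds, q D) ^ 2 ≤ Ds.card * ∑ D ∈ Ds, q D ^ 2 := sq_sum_le_card_mul_sum_sq
  rw [h1] at h3
  rcases Nat.eq_zero_or_pos A.card with h0 | h0
  · simp [h0]
  · apply Nat.le_of_mul_le_mul_right _ h0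
    calc k ^ 2 * A.card * A.card = (k * A.card) ^ 2 := by ring
      _ ≤ Ds.card * (A.card * (k + θ)) := h3.trans (Nat.mul_le_mul_left _ h2)
      _ = Ds.card * (k + θ) * A.card := by ring

/-- Stable sets of the Johnson graph. -/
def Stable (W : Finset (Finset α)) : Prop := ∀ X ∈ W, ∀ Y ∈ W, ¬ Adj X Y

instance : DecidablePred (Stable (α := α)) := fun W =>
  inferInstanceAs (Decidable (∀ X ∈ W, ∀ Y ∈ W, ¬ Adj X Y))

/-- Graham and Sloane. -/
theorem exists_stable {n : ℕ} (hn : 0 < n) (U : Finset (Finset (Fin n))) :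
    ∃ F, F ⊆ U ∧ Stable F ∧ U.card ≤ n * F.card := by
  have : NeZero n := ⟨hn.ne'⟩
  let c : Finset (Fin n) → Fin n := fun X => ∑ x ∈ X, x
  obtain ⟨a, -, ha⟩ := exists_max_image (univ : Finset (Fin n))
    (fun a => (U.filter (fun X => c X = a)).card) univ_nonempty
  refine ⟨U.filter (fun X => c X = a), filter_subset _ _, ?_, ?_⟩
  · intro X hX Y hY hadj
    obtain ⟨x, hx, y, hy, rfl⟩ := adj_iff.mp hadj
    have h1 := (mem_filter.mp hX).2
    have h2 := (mem_filter.mp hY).2
    simp only [c] at h1 h2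
    rw [sum_insert (by simp [hy])] at h2
    rw [← add_sum_erase _ _ hx] at h1
    have : x = y := add_right_cancel (h1.trans h2.symm)
    exact hy (this ▸ hx)
  · rw [card_eq_sum_card_fiberwise (f := c) (t := univ) (fun _ _ => mem_univ _)]
    have := sum_le_card_nsmul _ _ _ ha
    simpa using this

/-- The family of stable families of `r`-sets. -/
def SS (n r : ℕ) : Finset (Finset (Finset (Fin n))) :=
  (powersetCard r (univ : Finset (Fin n))).powerset.filter Stable

theorem count_free {n r : ℕ} (hn : 0 < n) (G : Finset (Finset (Fin n)))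
    (hG : ∀ Y ∈ G, Y.card = r) (TT : Finset (Finset (Finset (Fin n)))) (f : ℕ)
    (hT : ∀ T ∈ TT, (∀ X ∈ T, X.card = r) ∧ Stable T ∧ Disjoint T G ∧
      n * f ≤ (G.filter (fun Y => ∀ X ∈ T, ¬ Adj X Y)).card) :
    TT.card * 2 ^ f ≤ (SS n r).card := by
  have hex : ∀ T : Finset (Finset (Fin n)), ∃ F, F ⊆ G.filter (fun Y => ∀ X ∈ T, ¬ Adj X Y) ∧
      Stable F ∧ (G.filter (fun Y => ∀ X ∈ T, ¬ Adj X Y)).card ≤ n * F.card :=
    fun T => exists_stable hn _
  choose F hF1 hF2 hF3 using hex
  have h1 : TT.card * 2 ^ f ≤ (TT.sigma (fun T => (F T).powerset)).card := by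
    rw [card_sigma, ← smul_eq_mul, ← sum_const]
    apply sum_le_sum
    intro T hT'
    rw [card_powerset]
    apply Nat.pow_le_pow_right (by norm_num)
    exact Nat.le_of_mul_le_mul_left ((hT T hT').2.2.2.trans (hF3 T)) hn
  refine h1.trans (card_le_card_of_injOn (fun p => p.1 ∪ p.2) ?_ ?_)
  · rintro ⟨T, U⟩ hp
    simp only [coe_sigma, Set.mem_sigma_iff, mem_coe, mem_powerset] at hp
    obtain ⟨hp1, hp2⟩ := hp
    obtain ⟨t1, t2, -, -⟩ := hT T hp1
    have hU : ∀ Y ∈ U, Y ∈ G ∧ ∀ X ∈ T, ¬ Adj X Y := fun Y hY => mem_filter.mp (hF1 T (hp2 hY))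
    simp only [SS, coe_filter, mem_powerset, Set.mem_ofPred_eq]
    constructor
    · intro X hX
      rw [mem_powersetCard]
      refine ⟨subset_univ _, ?_⟩
      rcases mem_union.mp hX with h | h
      · exact t1 X h
      · exact hG X (hU X h).1
    · intro X hX Y hY hadj
      rcases mem_union.mp hX with h | h <;> rcases mem_union.mp hY with h' | h'
      · exact t2 X h Y h' hadj
      · exact (hU Y h').2 X h hadj
      · exact (hU X h).2 Y h' hadj.symm
      · exact hF2 T X (hp2 h) Y (hp2 h') hadj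
  · rintro ⟨T, U⟩ hp ⟨T', U'⟩ hp' heq
    simp only [coe_sigma, Set.mem_sigma_iff, mem_coe, mem_powerset] at hp hp'
    simp only at heq
    have key : ∀ T U : Finset (Finset (Fin n)), T ∈ TT → U ⊆ F T →
        (T ∪ U) \ G = T ∧ (T ∪ U) ∩ G = U := by
      intro T U h1 h2
      have hd := disjoint_left.mp (hT T h1).2.2.1
      have hU : ∀ Y ∈ U, Y ∈ G := fun Y hY => (mem_filter.mp (hF1 T (h2 hY))).1
      constructor
      · ext a; simp only [mem_sdiff, mem_union]
        have := @hd a
        have := hU a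
        tauto
      · ext a; simp only [mem_inter, mem_union]
        have := @hd a
        have := hU a
        tauto
    obtain ⟨k1, k2⟩ := key T U hp.1 hp.2
    obtain ⟨k3, k4⟩ := key T' U' hp'.1 hp'.2
    have e1 : T = T' := by rw [← k1, heq, k3]
    have e2 : U = U' := by rw [← k2, heq, k4]
    subst e1 e2
    rfl

/-- The sparse paving rank function of a stable set. -/
def spRk (r : ℕ) (W : Finset (Finset α)) : Finset α → ℕ :=
  fun X => if X ∈ W then r - 1 else min X.card r

theorem spRk_rk (r : ℕ) (W : Finset (Finset α)) (hW : ∀ X ∈ W, X.card = r) (hs : Stable W) :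
    IsRk (spRk r W) := by
  have hle : ∀ X, spRk r W X ≤ min X.card r := by
    intro X
    unfold spRk
    split_ifs with h
    · have := hW X h; omega
    · exact le_rfl
  have hone : ∀ X Y, X ∈ W → Y ∉ W →
      spRk r W (X ∩ Y) + spRk r W (X ∪ Y) ≤ spRk r W X + spRk r W Y := by
    intro X Y hX hY
    by_cases h1 : Y ⊆ X
    · rw [inter_eq_right.mpr h1, union_eq_left.mpr h1, add_comm]
    by_cases h2 : X ⊆ Y
    · rw [inter_eq_left.mpr h2, union_eq_right.mpr h2]
    have c1 : (X ∩ Y).card < Y.card :=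
      card_lt_card ⟨inter_subset_right, fun h => h1 (h.trans inter_subset_left)⟩
    have c2 : (X ∩ Y).card < X.card :=
      card_lt_card ⟨inter_subset_left, fun h => h2 (h.trans inter_subset_right)⟩
    have c3 := hle (X ∩ Y)
    have c4 := hle (X ∪ Y)
    have c5 := hW X hX
    have e1 : spRk r W X = r - 1 := if_pos hX
    have e2 : spRk r W Y = min Y.card r := if_neg hY
    omega
  refine ⟨fun X => (hle X).trans (min_le_left _ _), fun X Y hXY => ?_, fun X Y => ?_⟩
  · have c1 := card_le_card hXY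
    by_cases hY : Y ∈ W
    · by_cases hXY' : X = Y
      · rw [hXY']
      · have c2 : X.card < Y.card := card_lt_card (ssubset_of_ne_of_subset hXY' hXY)
        have c3 := hle X
        have c4 := hW Y hY
        have e1 : spRk r W Y = r - 1 := if_pos hY
        omega
    · have c3 := hle X
      have e2 : spRk r W Y = min Y.card r := if_neg hY
      omega
  · by_cases hX : X ∈ W <;> by_cases hY : Y ∈ W
    · by_cases hXY : X = Y
      · subst hXY; simp
      · have c1 : ¬ r ≤ (X ∩ Y).card + 1 :=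
          fun h => hs X hX Y hY (adj_of_inter (hW X hX) (hW Y hY) hXY h)
        have c3 := hle (X ∩ Y)
        have c4 := hle (X ∪ Y)
        have e1 : spRk r W X = r - 1 := if_pos hX
        have e2 : spRk r W Y = r - 1 := if_pos hY
        omega
    · exact hone X Y hX hY
    · rw [inter_comm, union_comm, add_comm (spRk r W X)]
      exact hone Y X hY hX
    · have c3 := hle (X ∩ Y)
      have c4 := hle (X ∪ Y)
      have c5 := card_inter_add_card_union X Y
      have c6 : (X ∩ Y).card ≤ X.card := card_le_card inter_subset_left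
      have c7 : (X ∩ Y).card ≤ Y.card := card_le_card inter_subset_right
      have e1 : spRk r W X = min X.card r := if_neg hX
      have e2 : spRk r W Y = min Y.card r := if_neg hY
      omega

end Pool.Agent.Lib.MP_7685df_co
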