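import Pool.Agent.Lib.MP_7685df_co.Bound
import Pool.Agent.Lib.MP_7685df_co.HVec

set_option autoImplicit false
set_option linter.unusedSectionVars false

namespace Pool.Agent.Lib.MP_7685df_co

open Finset Filter Topology

variable {n r : ℕ}

open Classical in
/-- All rank functions on `Fin n`. -/
noncomputable def RK (n : ℕ) : Finset (Finset (Fin n) → ℕ) :=
  (Fintype.piFinset (fun _ => range (n + 1))).filter IsRk

theorem mem_RK {ρ : Finset (Fin n) → ℕ} : ρ ∈ RK n ↔ IsRk ρ := by
  simp only [RK, mem_filter, Fintype.mem_piFinset, mem_range, and_iff_right_iff_imp]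
  intro h X
  have e1 := h.le_card X
  have e2 := card_le_univ X
  rw [Fintype.card_fin] at e2
  omega

/-- All reliability roots lie in the closed unit disk. -/
def Good (ρ : Finset (Fin n) → ℕ) : Prop :=
  ∀ z : ℂ, ∑ I ∈ ind ρ univ, z ^ I.card * (1 - z) ^ (n - I.card) = 0 → ‖z‖ ≤ 1

/-- Largeness conditions. -/
structure Big (n : ℕ) : Prop where
  h1 : 4000 ≤ n
  kap : kap n ≤ 1 / (200 * 3 ^ 40)
  sm : Real.exp (n / 10 + 3) * (2 * n ^ 3 * (n + 1)) ≤ 2 ^ n
  q : (2 * n + 2) * (200 * 3 ^ 40) * (2 * n ^ 2 * (n + 1)) ≤ (2 : ℝ) ^ n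
  win : 2 * n * (n + 1) * (197 / 100 : ℝ) ^ n < 2 ^ n

theorem choose_small (h : 5 * r < 2 * n) : (n.choose r : ℝ) ≤ (197 / 100) ^ n := by
  have e1 : (n.choose r : ℝ) * (2 / 3) ^ r ≤ (5 / 3) ^ n := by
    have := add_pow (2 / 3 : ℝ) 1 n
    rw [show (2 / 3 + 1 : ℝ) = 5 / 3 by norm_num] at this
    rw [this]
    have h2 := single_le_sum (f := fun m => (2 / 3 : ℝ) ^ m * 1 ^ (n - m) * n.choose m)
      (fun _ _ => by positivity) (mem_range.mpr (by omega : r < n + 1))
    simp only [one_pow, mul_one] at h2 ⊢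
    linarith
  have e2 : (n.choose r : ℝ) ^ 5 * (2 / 3) ^ (2 * n) ≤ (5 / 3) ^ (5 * n) := by
    calc (n.choose r : ℝ) ^ 5 * (2 / 3) ^ (2 * n) ≤ (n.choose r : ℝ) ^ 5 * (2 / 3) ^ (r * 5) := by
          apply mul_le_mul_of_nonneg_left _ (by positivity)
          exact pow_le_pow_of_le_one (by norm_num) (by norm_num) (by omega)
      _ = ((n.choose r : ℝ) * (2 / 3) ^ r) ^ 5 := by rw [mul_pow, pow_mul]
      _ ≤ ((5 / 3) ^ n) ^ 5 := by gcongr
      _ = _ := by rw [← pow_mul, mul_comm]
  apply le_of_pow_le_pow_left₀ (n := 5) (by norm_num) (by positivity)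
  rw [← le_div_iff₀ (by positivity), pow_mul, pow_mul, ← div_pow] at e2
  refine e2.trans ?_
  rw [← pow_mul, mul_comm, pow_mul]
  apply pow_le_pow_left₀ (by positivity)
  norm_num

theorem window (hb : Big n) (hN : 2 ^ n ≤ 2 * n * (n + 1) * n.choose r) :
    2 * n ≤ 5 * r ∧ 5 * r ≤ 3 * n := by
  have hNR : (2 : ℝ) ^ n ≤ 2 * n * (n + 1) * n.choose r := by exact_mod_cast hN
  have key : ¬ (n.choose r : ℝ) ≤ (197 / 100) ^ n := by
    intro h
    have := hb.win
    have h2 : 2 * n * (n + 1) * (n.choose r : ℝ) ≤ 2 * n * (n + 1) * (197 / 100) ^ n := by gcongr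
    linarith
  constructor
  · by_contra h
    exact key (choose_small (by omega))
  · by_contra h
    by_cases hr : r ≤ n
    · rw [← Nat.choose_symm hr] at key
      exact key (choose_small (by omega))
    · rw [Nat.choose_eq_zero_of_lt (by omega)] at key
      exact key (by rw [Nat.cast_zero]; positivity)

theorem q_large (hb : Big n) (hN : 2 ^ n ≤ 2 * n * (n + 1) * n.choose r) :
    (2 * n + 2) * (200 * 3 ^ 40) ≤ (n.choose r / n : ℝ) := by
  have hNR : (2 : ℝ) ^ n ≤ 2 * n * (n + 1) * n.choose r := by exact_mod_cast hN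
  have hn : (4000 : ℝ) ≤ n := by exact_mod_cast hb.h1
  rw [le_div_iff₀ (by positivity)]
  apply le_of_mul_le_mul_left _ (by positivity : (0 : ℝ) < 2 * n * (n + 1))
  refine le_trans (le_of_eq ?_) (hb.q.trans hNR)
  ring

open Classical in
theorem bad1_total (hb : Big n) (hN : 2 ^ n ≤ 2 * n * (n + 1) * n.choose r) :
    (((RK n).filter (fun ρ => ρ univ = r ∧ (∀ F : Finset (Fin n), F.card ≤ 40 → ρ F = F.card) ∧
      (∀ F : Finset (Fin n), Fᶜ.card ≤ 40 → ρ F = r) ∧
      3 * n.choose r ≤ 20 * ((VV n r).filter (fun X => ρ X < r)).card)).card : ℝ)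
      ≤ (SS n r).card * Real.exp (-n) := by
  obtain ⟨h1, h2⟩ := window hb hN
  have hq := q_large hb hN
  have hn := hb.h1
  have hnR : (4000 : ℝ) ≤ n := by exact_mod_cast hb.h1
  have hN' : 100 ≤ n.choose r := by
    have : (100 : ℝ) ≤ n.choose r := by
      rw [le_div_iff₀ (by positivity)] at hq
      nlinarith
    exact_mod_cast this
  refine (overhead (by omega) h1 h2 hN hb.sm _ (by positivity) _
    (fun ρ hρ => ⟨mem_RK.mp (mem_filter.mp hρ).1, (mem_filter.mp hρ).2.1⟩)
    (fun A Z c MM hMM hc => bad1_real (by omega) h1 h2 hN' c MM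
      (fun ρ hρ => ⟨hc ρ hρ, (mem_filter.mp (hMM hρ)).2.2⟩))).trans ?_
  rw [mul_left_comm, ← Real.exp_add]
  apply mul_le_mul_of_nonneg_left _ (by positivity)
  apply Real.exp_le_exp.mpr
  have hk := mul_le_mul_of_nonneg_right hb.kap (by positivity : (0 : ℝ) ≤ n.choose r / n)
  generalize (n.choose r / n : ℝ) = q at *
  norm_num at hk hq ⊢
  nlinarith

open Classical in
theorem bad2_total (hb : Big n) (hN : 2 ^ n ≤ 2 * n * (n + 1) * n.choose r) :
    (((RK n).filter (fun ρ => ρ univ = r ∧ ∃ F : Finset (Fin n), F.card ≤ 40 ∧ ρ F < F.card)).card : ℝ)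
      ≤ (SS n r).card * Real.exp (-n) := by
  obtain ⟨h1, h2⟩ := window hb hN
  have hq := q_large hb hN
  have hn := hb.h1
  have hnR : (4000 : ℝ) ≤ n := by exact_mod_cast hb.h1
  have hsub : (RK n).filter (fun ρ => ρ univ = r ∧ ∃ F : Finset (Fin n), F.card ≤ 40 ∧ ρ F < F.card)
      ⊆ univ.biUnion (fun C : Finset (Fin n) => (RK n).filter (fun ρ => ρ univ = r ∧ C.card ≤ 40 ∧
        ρ C < C.card ∧ ∀ a ∈ C, ρ (C.erase a) = ρ C)) := by
    intro ρ hρ
    obtain ⟨h3, h4, F, h5, h6⟩ := mem_filter.mp hρ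
    obtain ⟨C, h7, h8, h9⟩ := (mem_RK.mp h3).exists_circuit F h6
    exact mem_biUnion.mpr ⟨C, mem_univ _, mem_filter.mpr
      ⟨h3, h4, (card_le_card h7).trans h5, h8, h9⟩⟩
  have e1 := (card_le_card hsub).trans card_biUnion_le
  have e2 : ∀ C : Finset (Fin n), (((RK n).filter (fun ρ => ρ univ = r ∧ C.card ≤ 40 ∧
        ρ C < C.card ∧ ∀ a ∈ C, ρ (C.erase a) = ρ C)).card : ℝ)
        ≤ Real.exp (kap n * (n.choose r / n)) *
          ((SS n r).card * (2 * Real.exp (1 - (n.choose r / n) / (100 * 3 ^ 40)))) := by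
    intro C
    by_cases hC : C.card ≤ 40
    · exact overhead (by omega) h1 h2 hN hb.sm _ (by positivity) _
        (fun ρ hρ => ⟨mem_RK.mp (mem_filter.mp hρ).1, (mem_filter.mp hρ).2.1⟩)
        (fun A Z c MM hMM hc => bad2_real (by omega) h1 h2 c C hC hn MM
          (fun ρ hρ => ⟨hc ρ hρ, (mem_filter.mp (hMM hρ)).2.2.2⟩))
    · simp only [hC, false_and, and_false, filter_false, card_empty, Nat.cast_zero]
      positivity
  refine le_trans (Nat.cast_le.mpr e1) ?_
  push_cast
  refine (sum_le_card_nsmul _ _ _ (fun C _ => e2 C)).trans ?_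
  rw [card_univ, Fintype.card_finset, Fintype.card_fin, nsmul_eq_mul]
  push_cast
  have e3 : (2 : ℝ) ≤ Real.exp 1 := by linarith [Real.add_one_le_exp 1]
  have e4 : (2 : ℝ) ^ n ≤ Real.exp n := by
    rw [← mul_one (n : ℝ), Real.exp_nat_mul]
    exact pow_le_pow_left₀ (by norm_num) e3 _
  calc (2 : ℝ) ^ n * (Real.exp (kap n * (n.choose r / n)) *
          ((SS n r).card * (2 * Real.exp (1 - (n.choose r / n) / (100 * 3 ^ 40)))))
      ≤ Real.exp n * (Real.exp (kap n * (n.choose r / n)) *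
          ((SS n r).card * (Real.exp 1 * Real.exp (1 - (n.choose r / n) / (100 * 3 ^ 40))))) := by
        gcongr
    _ = (SS n r).card * Real.exp (n + kap n * (n.choose r / n) + 1
          + (1 - (n.choose r / n) / (100 * 3 ^ 40))) := by
        simp only [Real.exp_add]; ring
    _ ≤ _ := by
        apply mul_le_mul_of_nonneg_left _ (by positivity)
        apply Real.exp_le_exp.mpr
        have hk := mul_le_mul_of_nonneg_right hb.kap (by positivity : (0 : ℝ) ≤ n.choose r / n)
        generalize (n.choose r / n : ℝ) = q at *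
        norm_num at hk hq ⊢
        nlinarith

open Classical in
theorem bad3_total (hb : Big n) (hN : 2 ^ n ≤ 2 * n * (n + 1) * n.choose r) :
    (((RK n).filter (fun ρ => ρ univ = r ∧ ∃ F : Finset (Fin n), Fᶜ.card ≤ 40 ∧ ρ F < r)).card : ℝ)
      ≤ (SS n (n - r)).card * Real.exp (-n) := by
  obtain ⟨h1, h2⟩ := window hb hN
  refine le_trans ?_ (bad2_total hb (r := n - r) (by rwa [Nat.choose_symm (by omega)]))
  apply Nat.cast_le.mpr
  apply card_le_card_of_injOn dual
  · intro ρ hρ
    obtain ⟨h3, h4, F, h5, h6⟩ := mem_filter.mp hρ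
    have h := mem_RK.mp h3
    refine mem_coe.mpr (mem_filter.mpr ⟨mem_RK.mpr h.dual_rk, ?_, Fᶜ, h5, ?_⟩)
    · rw [h.dual_univ, Fintype.card_fin, h4]
    · have := h.univ_le Fᶜ
      unfold dual
      rw [compl_compl] at this ⊢
      omega
  · intro ρ hρ ρ' hρ' e
    rw [← (mem_RK.mp (mem_filter.mp hρ).1).dual_dual, e,
      (mem_RK.mp (mem_filter.mp hρ').1).dual_dual]

open Classical in
theorem central_bad (hb : Big n) (hN : 2 ^ n ≤ 2 * n * (n + 1) * n.choose r) (m : ℝ)
    (hm : ∀ k, 0 < k → ((SS n k).card : ℝ) ≤ m) :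
    (((RK n).filter (fun ρ => ρ univ = r ∧ ¬ Good ρ)).card : ℝ) ≤ 3 * (m * Real.exp (-n)) := by
  obtain ⟨h1, h2⟩ := window hb hN
  have hn := hb.h1
  have a1 := (bad1_total hb hN).trans
    (mul_le_mul_of_nonneg_right (hm r (by omega)) (Real.exp_pos _).le)
  have a2 := (bad2_total hb hN).trans
    (mul_le_mul_of_nonneg_right (hm r (by omega)) (Real.exp_pos _).le)
  have a3 := (bad3_total hb hN).trans
    (mul_le_mul_of_nonneg_right (hm (n - r) (by omega)) (Real.exp_pos _).le)
  refine le_trans ?_ ((add_le_add (add_le_add a1 a2) a3).trans (le_of_eq (by ring)))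
  rw [← Nat.cast_add, ← Nat.cast_add, Nat.cast_le]
  refine le_trans (card_le_card ?_) ((card_union_le _ _).trans
    (Nat.add_le_add_right (card_union_le _ _) _))
  intro ρ hρ
  obtain ⟨h3, h4, h5⟩ := mem_filter.mp hρ
  have h := mem_RK.mp h3
  simp only [mem_union, mem_filter, h3, h4, true_and]
  by_cases c2 : ∃ F : Finset (Fin n), F.card ≤ 40 ∧ ρ F < F.card
  · exact Or.inl (Or.inr c2)
  by_cases c3 : ∃ F : Finset (Fin n), Fᶜ.card ≤ 40 ∧ ρ F < r
  · exact Or.inr c3
  push Not at c2 c3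
  refine Or.inl (Or.inl ⟨fun F hF => le_antisymm (h.le_card F) (c2 F hF),
    fun F hF => le_antisymm (h4 ▸ h.mono _ _ (subset_univ _)) (c3 F hF), ?_⟩)
  by_contra hc
  apply h5
  intro z hz
  have hcard : (univ : Finset (Fin n)).card = n := by simp
  apply roots_of_mono h univ _ z (by rwa [hcard])
  apply mono_of_bases h univ (by omega) (by omega)
  rw [hcard, h4]
  have e1 := card_filter_add_card_filter_not (s := VV n r) (fun X => ρ X < r)
  rw [card_VV] at e1
  have e2 : ((VV n r).filter (fun X => ¬ ρ X < r)).card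
      ≤ ((ind ρ univ).filter (fun I => I.card = r)).card := by
    apply card_le_card
    intro X hX
    rw [mem_filter, mem_VV] at hX
    have := h.le_card X
    exact mem_filter.mpr ⟨mem_ind.mpr ⟨subset_univ _, by omega⟩, hX.1⟩
  omega

open Classical in
theorem card_rank_le (n r : ℕ) :
    ((RK n).filter (fun ρ => ρ univ = r)).card ≤ 2 ^ n.choose r := by
  rw [← card_VV, ← card_powerset]
  apply card_le_card_of_injOn (fun ρ => (VV n r).filter (fun X => ρ X = X.card))
  · intro ρ _
    exact mem_coe.mpr (mem_powerset.mpr (filter_subset _ _))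
  · intro ρ hρ ρ' hρ' e
    obtain ⟨h1, h2⟩ := mem_filter.mp hρ
    obtain ⟨h3, h4⟩ := mem_filter.mp hρ'
    simp only at e
    funext X
    apply le_antisymm
    · apply (mem_RK.mp h1).le_of_bases (mem_RK.mp h3)
      intro B hB1 hB2
      have : B ∈ (VV n r).filter (fun X => ρ X = X.card) :=
        mem_filter.mpr ⟨mem_VV.mpr (h2 ▸ hB1), hB2⟩
      rw [e] at this
      exact (mem_filter.mp this).2
    · apply (mem_RK.mp h3).le_of_bases (mem_RK.mp h1)
      intro B hB1 hB2
      have : B ∈ (VV n r).filter (fun X => ρ' X = X.card) :=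
        mem_filter.mpr ⟨mem_VV.mpr (h4 ▸ hB1), hB2⟩
      rw [← e] at this
      exact (mem_filter.mp this).2

theorem SS_lower (hn : 0 < n) (r : ℕ) : 2 ^ (n.choose r / n) ≤ (SS n r).card := by
  have := count_free hn (VV n r) (fun _ h => mem_VV.mp h) {∅} (n.choose r / n) (by
    intro T hT
    rw [mem_singleton] at hT
    subst hT
    refine ⟨by simp, by simp [Stable], by simp, ?_⟩
    simp only [notMem_empty, false_imp_iff, implies_true, filter_true, card_VV]
    exact Nat.mul_div_le _ _)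
  simpa using this

theorem two_pow_le_middle (n : ℕ) : 2 ^ n ≤ (n + 1) * n.choose (n / 2) := by
  rw [← Nat.sum_range_choose]
  have := sum_le_card_nsmul (range (n + 1)) (fun m => n.choose m) _
    (fun m _ => Nat.choose_le_middle m n)
  simpa using this

open Classical in
theorem total_bad (hb : Big n) (m : ℝ) (hm : ∀ k, 0 < k → ((SS n k).card : ℝ) ≤ m) :
    (((RK n).filter (fun ρ => ¬ Good ρ)).card : ℝ) ≤ (n + 1) * (3 * (m * Real.exp (-n))) := by
  have hn := hb.h1
  have hm0 : 0 ≤ m := le_trans (by positivity) (hm 1 one_pos)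
  rw [card_eq_sum_card_fiberwise (f := fun ρ => ρ univ) (t := range (n + 1)) (by
    intro ρ hρ
    have := (mem_RK.mp (mem_filter.mp hρ).1).le_card univ
    simp only [card_univ, Fintype.card_fin] at this
    simp only [coe_range, Set.mem_Iio]
    omega)]
  push_cast
  refine (sum_le_card_nsmul _ _ (3 * (m * Real.exp (-n))) ?_).trans (by simp)
  intro r _
  rw [filter_filter]
  simp only [and_comm (b := _ = r)]
  by_cases hc : n.choose (n / 2) ≤ 2 * n * n.choose r
  · apply central_bad hb _ m hm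
    refine (two_pow_le_middle n).trans ((Nat.mul_le_mul_left _ hc).trans (le_of_eq (by ring)))
  · have e1 : ((RK n).filter (fun ρ => ρ univ = r ∧ ¬ Good ρ)).card ≤ 2 ^ n.choose r :=
      le_trans (card_le_card (fun ρ hρ => mem_filter.mpr
        ⟨(mem_filter.mp hρ).1, (mem_filter.mp hρ).2.1⟩)) (card_rank_le n r)
    have e2 := SS_lower (by omega : 0 < n) (n / 2)
    have e3 := q_large hb (r := n / 2) ((two_pow_le_middle n).trans
      (Nat.mul_le_mul_right _ (by nlinarith)))
    have e4 : n.choose r + 2 * n ≤ n.choose (n / 2) / n := by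
      rw [Nat.le_div_iff_mul_le (by omega)]
      rw [le_div_iff₀ (by exact_mod_cast (by omega : 0 < n))] at e3
      have e5 : (2 * n + 2) * (200 * 3 ^ 40) * n ≤ n.choose (n / 2) := by exact_mod_cast e3
      nlinarith
    have e5 : 2 ^ n.choose r * 2 ^ (2 * n) ≤ (SS n (n / 2)).card := by
      rw [← pow_add]
      exact (Nat.pow_le_pow_right (by norm_num) e4).trans e2
    have e6 : (2 : ℝ) ^ n.choose r * 2 ^ (2 * n) ≤ m :=
      le_trans (by exact_mod_cast e5) (hm _ (by omega))
    have e7 : Real.exp n ≤ 2 ^ (2 * n) := by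
      rw [← mul_one (n : ℝ), Real.exp_nat_mul, pow_mul]
      apply pow_le_pow_left₀ (Real.exp_pos _).le
      linarith [Real.exp_one_lt_d9]
    have e8 : (2 : ℝ) ^ n.choose r ≤ m * Real.exp (-n) := by
      rw [Real.exp_neg, ← div_eq_mul_inv, le_div_iff₀ (Real.exp_pos _)]
      exact le_trans (mul_le_mul_of_nonneg_left e7 (by positivity)) e6
    have e9 : (0 : ℝ) ≤ m * Real.exp (-n) := by positivity
    refine le_trans (by exact_mod_cast e1) (e8.trans (by linarith))

theorem ev_poly (C a : ℝ) (k : ℕ) (ha0 : 0 ≤ a) (ha : a < 2) :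
    ∀ᶠ n : ℕ in atTop, C * n ^ k * a ^ n < 2 ^ n := by
  have h := (tendsto_pow_const_mul_const_pow_of_abs_lt_one k (r := a / 2)
    (by rw [abs_of_nonneg (by positivity)]; linarith)).const_mul C
  rw [mul_zero] at h
  filter_upwards [h.eventually (gt_mem_nhds one_pos)] with n hn
  rw [div_pow, ← mul_div_assoc, ← mul_div_assoc, div_lt_one (by positivity)] at hn
  linarith [mul_assoc C ((n : ℝ) ^ k) (a ^ n)]

theorem kap_tendsto : Tendsto kap atTop (𝓝 0) := by
  have h1 : Tendsto (fun n : ℕ => 24 / (n : ℝ)) atTop (𝓝 0) := tendsto_const_div_atTop_nhds_zero_nat 24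
  have h2 : Tendsto (fun n : ℕ => Real.log n / (n : ℝ) ^ (1 / 2 : ℝ)) atTop (𝓝 0) :=
    (isLittleO_log_rpow_atTop (by norm_num : (0 : ℝ) < 1 / 2)).tendsto_div_nhds_zero.comp
      tendsto_natCast_atTop_atTop
  have h3 := h1.add (h2.const_mul 180000)
  simp only [mul_zero, add_zero] at h3
  apply squeeze_zero' _ _ h3
  · filter_upwards with n
    unfold kap
    have := Real.log_natCast_nonneg n
    positivity
  · filter_upwards [eventually_ge_atTop 1] with n hn
    unfold kap
    have hnR : (1 : ℝ) ≤ n := by exact_mod_cast hn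
    have hw1 : 1 ≤ n.sqrt := Nat.le_sqrt.mpr (by omega)
    have hwR : (1 : ℝ) ≤ n.sqrt := by exact_mod_cast hw1
    have hl := Real.log_natCast_nonneg n
    apply add_le_add
    · rw [div_le_div_iff₀ (by positivity) (by positivity)]
      have : ((n : ℝ) + 1) ^ 2 ≤ (2 * n) ^ 2 := by gcongr; linarith
      nlinarith
    · have e1 : (n : ℝ) ^ (1 / 2 : ℝ) ≤ 2 * n.sqrt := by
        rw [← Real.sqrt_eq_rpow]
        have := Real.real_sqrt_le_nat_sqrt_succ (a := n)
        linarith
      have e2 : (0 : ℝ) < (n : ℝ) ^ (1 / 2 : ℝ) := by positivity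
      rw [← mul_div_assoc, div_le_div_iff₀ (by positivity) e2]
      nlinarith [mul_le_mul_of_nonneg_left e1 hl]

theorem ev_big : ∀ᶠ n : ℕ in atTop, Big n := by
  have he : Real.exp (1 / 10) < 2 := by
    have h1 : Real.exp (1 / 10) ≤ Real.exp (Real.log (3 / 2)) := by
      apply Real.exp_le_exp.mpr
      have := Real.one_sub_inv_le_log_of_pos (by norm_num : (0 : ℝ) < 3 / 2)
      linarith
    rw [Real.exp_log (by norm_num)] at h1
    linarith
  filter_upwards [eventually_ge_atTop 4000,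
    kap_tendsto.eventually (ge_mem_nhds (by positivity : (0 : ℝ) < 1 / (200 * 3 ^ 40))),
    ev_poly (4 * Real.exp 3) (Real.exp (1 / 10)) 4 (Real.exp_pos _).le he,
    ev_poly (16 * (200 * 3 ^ 40)) 1 4 (by norm_num) (by norm_num),
    ev_poly 4 (197 / 100) 2 (by norm_num) (by norm_num)] with n h1 h2 h3 h4 h5
  have hnR : (4000 : ℝ) ≤ n := by exact_mod_cast h1
  have hn2 : (n : ℝ) + 1 ≤ 2 * n := by linarith
  refine ⟨h1, h2, le_trans ?_ h3.le, le_trans ?_ h4.le, lt_of_le_of_lt ?_ h5⟩
  · rw [← Real.exp_nat_mul, Real.exp_add, mul_one_div]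
    calc Real.exp (n / 10) * Real.exp 3 * (2 * n ^ 3 * (n + 1))
        ≤ Real.exp (n / 10) * Real.exp 3 * (2 * n ^ 3 * (2 * n)) := by gcongr
      _ = _ := by ring
  · calc (2 * (n : ℝ) + 2) * (200 * 3 ^ 40) * (2 * (n : ℝ) ^ 2 * (n + 1) : ℝ)
        = 4 * (200 * 3 ^ 40) * (n : ℝ) ^ 2 * (n + 1) * (n + 1) := by ring
      _ ≤ 4 * (200 * 3 ^ 40) * (n : ℝ) ^ 2 * (2 * n) * (2 * n) := by gcongr
      _ = _ := by ring
  · calc 2 * n * (n + 1) * (197 / 100 : ℝ) ^ n ≤ 2 * n * (2 * n) * (197 / 100 : ℝ) ^ n := by gcongr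
      _ = _ := by ring

/-- The rank function of a matroid. -/
noncomputable def rkOf (M : Matroid (Fin n)) : Finset (Fin n) → ℕ := fun X => (M.eRk X).toNat

theorem rkOf_cast (M : Matroid (Fin n)) (X : Finset (Fin n)) : (rkOf M X : ℕ∞) = M.eRk X := by
  apply ENat.natCast_toNat
  have := M.eRk_le_encard X
  rw [Set.encard_coe_eq_coe_finsetCard] at this
  exact ne_top_of_le_ne_top (ENat.natCast_ne_top _) this

theorem rkOf_rk (M : Matroid (Fin n)) : IsRk (rkOf M) := by
  refine ⟨fun X => ?_, fun X Y h => ?_, fun X Y => ?_⟩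
  · have := M.eRk_le_encard X
    rw [Set.encard_coe_eq_coe_finsetCard, ← rkOf_cast] at this
    exact_mod_cast this
  · have := M.eRk_mono (coe_subset.mpr h)
    rw [← rkOf_cast, ← rkOf_cast] at this
    exact_mod_cast this
  · have := M.eRk_inter_add_eRk_union_le X Y
    rw [← coe_inter, ← coe_union, ← rkOf_cast, ← rkOf_cast, ← rkOf_cast, ← rkOf_cast] at this
    exact_mod_cast this

theorem indep_iff (M : Matroid (Fin n)) (I : Finset (Fin n)) :
    M.Indep I ↔ rkOf M I = I.card := by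
  rw [Matroid.indep_iff_eRk_eq_encard_of_finite I.finite_toSet, Set.encard_coe_eq_coe_finsetCard,
    ← rkOf_cast]
  exact_mod_cast Iff.rfl

theorem rkOf_inj {M M' : Matroid (Fin n)} (h : M.E = Set.univ) (h' : M'.E = Set.univ)
    (e : rkOf M = rkOf M') : M = M' := by
  apply Matroid.ext_indep (h.trans h'.symm)
  intro I _
  rw [← (Set.toFinite I).coe_toFinset, indep_iff, indep_iff, e]

/-- The matroid of a rank function. -/
noncomputable def matOf {ρ : Finset (Fin n) → ℕ} (h : IsRk ρ) : Matroid (Fin n) :=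
  (IndepMatroid.ofFinset Set.univ (fun I => ρ I = I.card) (by simp [h.empty])
    (fun _ _ hJ hIJ => h.indep_sub hJ hIJ)
    (by
      intro I J hI hJ hIJ
      by_contra hc
      push Not at hc
      have h1 := h.span I J (by
        intro y hy
        by_cases hyI : y ∈ I
        · rw [insert_eq_of_mem hyI]
        · have := hc y hy hyI
          have := h.insert_le y I
          have := h.le_insert y I
          have := card_insert_of_notMem hyI
          omega)
      have h2 := h.mono J (I ∪ J) subset_union_right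
      omega)
    (fun _ _ => Set.subset_univ _)).matroid

theorem matOf_indep {ρ : Finset (Fin n) → ℕ} (h : IsRk ρ) (I : Finset (Fin n)) :
    (matOf h).Indep I ↔ ρ I = I.card := by
  simp [matOf]

instance finite_mat (p : Matroid (Fin n) → Prop) : Finite {M : Matroid (Fin n) // M.E = Set.univ ∧ p M} :=
  Finite.of_injective (fun M => (⟨rkOf M.1, mem_RK.mpr (rkOf_rk _)⟩ : RK n))
    (fun M M' e => Subtype.ext (rkOf_inj M.2.1 M'.2.1 (congrArg Subtype.val e)))

instance finite_mat' : Finite {M : Matroid (Fin n) // M.E = Set.univ} :=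
  Finite.of_injective (fun M => (⟨rkOf M.1, mem_RK.mpr (rkOf_rk _)⟩ : RK n))
    (fun M M' e => Subtype.ext (rkOf_inj M.2 M'.2 (congrArg Subtype.val e)))

theorem SS_le_mat (k : ℕ) (hk : 0 < k) :
    (SS n k).card ≤ Nat.card {M : Matroid (Fin n) // M.E = Set.univ} := by
  have hW : ∀ W : SS n k, (∀ X ∈ W.1, X.card = k) ∧ Stable W.1 := by
    intro W
    obtain ⟨h1, h2⟩ := mem_filter.mp W.2
    exact ⟨fun X hX => (mem_powersetCard.mp (mem_powerset.mp h1 hX)).2, h2⟩
  rw [← Nat.card_eq_finsetCard]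
  apply Nat.card_le_card_of_injective
    (fun W : SS n k => ⟨matOf (spRk_rk k W.1 (hW W).1 (hW W).2), rfl⟩)
  have key : ∀ W W' : SS n k, matOf (spRk_rk k W.1 (hW W).1 (hW W).2)
      = matOf (spRk_rk k W'.1 (hW W').1 (hW W').2) → W.1 ⊆ W'.1 := by
    intro W W' e X hX
    by_contra hc
    have h1 := matOf_indep (spRk_rk k W.1 (hW W).1 (hW W).2) X
    have h2 := matOf_indep (spRk_rk k W'.1 (hW W').1 (hW W').2) X
    rw [e, h2] at h1
    have h3 := (hW W).1 X hX
    simp only [spRk, hX, hc, if_true, if_false] at h1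
    omega
  intro W W' e
  have e' := congrArg Subtype.val e
  exact Subtype.ext (Subset.antisymm (key W W' e') (key W' W e'.symm))

open Classical in
theorem main (p : ∀ n : ℕ, Matroid (Fin n) → Prop) (hp : ∀ n M, Good (rkOf M) → p n M) :
    Tendsto (fun n : ℕ => (Nat.card {M : Matroid (Fin n) // M.E = Set.univ ∧ p n M} : ℝ) /
      Nat.card {M : Matroid (Fin n) // M.E = Set.univ}) atTop (𝓝 1) := by
  have hlim : Tendsto (fun n : ℕ => 1 - ((n : ℝ) + 1) * (3 * Real.exp (-n))) atTop (𝓝 1) := by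
    have h1 := (Real.tendsto_pow_mul_exp_neg_atTop_nhds_zero 1).comp tendsto_natCast_atTop_atTop
    have h0 := (Real.tendsto_pow_mul_exp_neg_atTop_nhds_zero 0).comp tendsto_natCast_atTop_atTop
    have h2 := ((h1.add h0).const_mul 3).const_sub 1
    simp only [add_zero, mul_zero, sub_zero] at h2
    refine h2.congr (fun n => ?_)
    simp only [Function.comp]
    ring
  apply tendsto_of_tendsto_of_tendsto_of_le_of_le' hlim tendsto_const_nhds
  · filter_upwards [ev_big] with n hb
    set m := Nat.card {M : Matroid (Fin n) // M.E = Set.univ} with hm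
    have h1 := total_bad hb m (fun k hk => by exact_mod_cast SS_le_mat k hk)
    have h2 : 0 < m := lt_of_lt_of_le (lt_of_lt_of_le (by positivity)
      (SS_lower (by have := hb.h1; omega) 1)) (SS_le_mat 1 one_pos)
    have h3 : m ≤ Nat.card {M : Matroid (Fin n) // M.E = Set.univ ∧ p n M}
        + ((RK n).filter (fun ρ => ¬ Good ρ)).card := by
      rw [← Nat.card_eq_finsetCard, ← Nat.card_sum]
      apply Nat.card_le_card_of_injective (fun M => if h : p n M.1 then Sum.inl ⟨M.1, M.2, h⟩ else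
        Sum.inr ⟨rkOf M.1, mem_filter.mpr ⟨mem_RK.mpr (rkOf_rk _), fun hg => h (hp n _ hg)⟩⟩)
      intro M M' e
      by_cases h : p n M.1 <;> by_cases h' : p n M'.1 <;>
        simp only [h, h', dite_true, dite_false, Sum.inl.injEq, Sum.inr.injEq, Subtype.mk.injEq,
          reduceCtorEq] at e
      · exact Subtype.ext e
      · exact Subtype.ext (rkOf_inj M.2 M'.2 e)
    have h4 : (0 : ℝ) < m := by exact_mod_cast h2
    have h5 : (m : ℝ) ≤ Nat.card {M : Matroid (Fin n) // M.E = Set.univ ∧ p n M}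
        + ((RK n).filter (fun ρ => ¬ Good ρ)).card := by exact_mod_cast h3
    rw [le_div_iff₀ h4]
    nlinarith
  · filter_upwards with n
    apply div_le_one_of_le₀ _ (by positivity)
    exact_mod_cast Nat.card_le_card_of_injective
      (fun M : {M : Matroid (Fin n) // M.E = Set.univ ∧ p n M} =>
        (⟨M.1, M.2.1⟩ : {M : Matroid (Fin n) // M.E = Set.univ}))
      (fun M M' e => Subtype.ext (by simpa using e))

end Pool.Agent.Lib.MP_7685df_co
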