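import Mathlib

set_option autoImplicit false

namespace Pool.Agent.Lib.MP_7685df_co

open Finset

variable {α : Type*} [DecidableEq α]

/-- Rank axioms for a function on finite sets. -/
structure IsRk (ρ : Finset α → ℕ) : Prop where
  le_card : ∀ X, ρ X ≤ X.card
  mono : ∀ X Y, X ⊆ Y → ρ X ≤ ρ Y
  submod : ∀ X Y, ρ (X ∩ Y) + ρ (X ∪ Y) ≤ ρ X + ρ Y

namespace IsRk

variable {ρ : Finset α → ℕ}

theorem empty (h : IsRk ρ) : ρ ∅ = 0 := by
  have := h.le_card ∅
  simpa using this

theorem union_le (h : IsRk ρ) (X Y : Finset α) : ρ (X ∪ Y) ≤ ρ X + Y.card := by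
  have h1 := h.submod X Y
  have h2 := h.le_card Y
  omega

theorem insert_le (h : IsRk ρ) (e : α) (X : Finset α) : ρ (insert e X) ≤ ρ X + 1 := by
  have h1 := h.union_le X {e}
  rw [card_singleton, union_comm, ← insert_eq] at h1
  exact h1

theorem le_insert (h : IsRk ρ) (e : α) (X : Finset α) : ρ X ≤ ρ (insert e X) :=
  h.mono _ _ (subset_insert _ _)

theorem le_erase (h : IsRk ρ) (e : α) (X : Finset α) : ρ X ≤ ρ (X.erase e) + 1 := by
  have h1 := h.insert_le e (X.erase e)
  have h2 := h.mono X (insert e (X.erase e)) (by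
    intro a ha; by_cases h : a = e <;> simp [h, ha])
  omega

theorem erase_le (h : IsRk ρ) (e : α) (X : Finset α) : ρ (X.erase e) ≤ ρ X :=
  h.mono _ _ (erase_subset _ _)

theorem le_add_sdiff (h : IsRk ρ) (X Y : Finset α) : ρ X ≤ ρ Y + (X \ Y).card := by
  have h1 := h.union_le Y (X \ Y)
  have h2 := h.mono X (Y ∪ X \ Y) (by intro a ha; by_cases hy : a ∈ Y <;> simp [ha, hy])
  omega

/-- Subsets of independent sets are independent. -/
theorem indep_sub (h : IsRk ρ) {X Y : Finset α} (hX : ρ X = X.card) (hY : Y ⊆ X) :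
    ρ Y = Y.card := by
  have h1 := h.le_add_sdiff X Y
  have h2 := h.le_card Y
  have h3 := card_sdiff_add_card_eq_card hY
  omega

/-- A dependent part makes a set dependent. -/
theorem dep_of_inter (h : IsRk ρ) {X F : Finset α} (hF : ρ F < (X ∩ F).card) :
    ρ X < X.card := by
  by_contra hc
  have h1 : ρ X = X.card := le_antisymm (h.le_card X) (by omega)
  have h2 := h.indep_sub h1 (inter_subset_left (s₂ := F))
  have h3 := h.mono (X ∩ F) F inter_subset_right
  omega

theorem cl_mono (h : IsRk ρ) {A B : Finset α} {e : α} (hA : ρ (insert e A) = ρ A) (hAB : A ⊆ B) :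
    ρ (insert e B) = ρ B := by
  have h1 := h.submod (insert e A) B
  have h2 := h.mono A (insert e A ∩ B) (by
    intro a ha; simp [ha, hAB ha])
  have h3 : insert e A ∪ B = insert e B := by
    ext a; simp only [mem_union, mem_insert]; constructor
    · rintro ((h | h) | h)
      · exact Or.inl h
      · exact Or.inr (hAB h)
      · exact Or.inr h
    · rintro (h | h)
      · exact Or.inl (Or.inl h)
      · exact Or.inr h
  rw [h3] at h1
  have h4 := h.le_insert e B
  omega

theorem span (h : IsRk ρ) (W C : Finset α) (hC : ∀ y ∈ C, ρ (insert y W) = ρ W) :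
    ρ (W ∪ C) = ρ W := by
  induction C using Finset.induction_on with
  | empty => simp
  | insert y C hy ih =>
    have h1 := ih (fun z hz => hC z (mem_insert_of_mem hz))
    have h2 := h.cl_mono (hC y (mem_insert_self _ _)) (subset_union_left (s₂ := C))
    rw [union_insert, h2, h1]

theorem dep (h : IsRk ρ) (W : Finset α) (hW1 : W.card ≤ ρ W + 1) (hW2 : ρ W < W.card)
    (R : Finset α) (hR : R ⊆ W) (hx : ∀ x ∈ R, ρ (W.erase x) + 1 < W.card) :
    ρ (W \ R) < (W \ R).card := by
  induction R using Finset.induction_on with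
  | empty => simpa using hW2
  | insert x R hxR ih =>
    have h1 := ih (fun a ha => hR (mem_insert_of_mem ha)) (fun z hz => hx z (mem_insert_of_mem hz))
    have hxW : x ∈ W := hR (mem_insert_self _ _)
    have h2 := h.submod (W \ R) (W.erase x)
    have h3 : W \ R ∩ W.erase x = W \ insert x R := by
      ext a; simp only [mem_inter, mem_sdiff, mem_erase, mem_insert]; tauto
    have h4 : W \ R ∪ W.erase x = W := by
      ext a; simp only [mem_union, mem_sdiff, mem_erase]
      constructor
      · tauto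
      · intro ha
        by_cases hax : a = x
        · subst hax; exact Or.inl ⟨ha, hxR⟩
        · exact Or.inr ⟨hax, ha⟩
    rw [h3, h4] at h2
    have h5 : (W \ insert x R).card + 1 = (W \ R).card := by
      have : W \ R = insert x (W \ insert x R) := by
        ext a; simp only [mem_sdiff, mem_insert]
        constructor
        · rintro ⟨h1, h2⟩
          by_cases hax : a = x
          · exact Or.inl hax
          · exact Or.inr ⟨h1, by tauto⟩
        · rintro (rfl | ⟨h1, h2⟩)
          · exact ⟨hxW, hxR⟩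
          · exact ⟨h1, by tauto⟩
      rw [this, card_insert_of_notMem (by simp)]
    have h6 := hx x (mem_insert_self _ _)
    omega

/-- Extension of independent sets. -/
theorem extend (h : IsRk ρ) (I Y : Finset α) (hI : ρ I = I.card) (hIY : I ⊆ Y) :
    ∃ J, I ⊆ J ∧ J ⊆ Y ∧ ρ J = J.card ∧ J.card = ρ Y := by
  classical
  obtain ⟨J, hJ, hmax⟩ := exists_max_image
    (Y.powerset.filter (fun J => I ⊆ J ∧ ρ J = J.card)) card ⟨I, by simp [hIY, hI]⟩
  simp only [mem_filter, mem_powerset] at hJ hmax
  obtain ⟨hJY, hIJ, hJ⟩ := hJ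
  refine ⟨J, hIJ, hJY, hJ, ?_⟩
  have h1 : ∀ y ∈ Y, ρ (insert y J) = ρ J := by
    intro y hy
    by_cases hyJ : y ∈ J
    · rw [insert_eq_of_mem hyJ]
    · by_contra hne
      have h2 := h.insert_le y J
      have h3 := h.le_insert y J
      have h4 := card_insert_of_notMem hyJ
      have h5 := hmax (insert y J) ⟨insert_subset hy hJY, hIJ.trans (subset_insert _ _), by omega⟩
      omega
  have h2 := h.span J Y h1
  rw [union_eq_right.mpr hJY] at h2
  omega

/-- Minimal dependent subsets. -/
theorem exists_circuit (h : IsRk ρ) (F : Finset α) (hF : ρ F < F.card) :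
    ∃ C, C ⊆ F ∧ ρ C < C.card ∧ ∀ c ∈ C, ρ (C.erase c) = ρ C := by
  classical
  obtain ⟨C, hC, hmin⟩ := exists_min_image
    (F.powerset.filter (fun C => ρ C < C.card)) card ⟨F, by simp [hF]⟩
  simp only [mem_filter, mem_powerset] at hC hmin
  refine ⟨C, hC.1, hC.2, fun c hc => ?_⟩
  have h1 := card_erase_of_mem hc
  have h2 := h.erase_le c C
  have h3 : 0 < C.card := card_pos.mpr ⟨c, hc⟩
  by_contra hne
  have h4 := hmin (C.erase c) ⟨(erase_subset _ _).trans hC.1, by omega⟩
  omega

end IsRk

/-- Contraction of one element. -/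
def con (ρ : Finset α → ℕ) (e : α) : Finset α → ℕ := fun X => ρ (insert e X) - ρ {e}

theorem IsRk.con_rk {ρ : Finset α → ℕ} (h : IsRk ρ) (e : α) : IsRk (con ρ e) := by
  have key : ∀ X, ρ {e} ≤ ρ (insert e X) := fun X => h.mono _ _ (by simp)
  refine ⟨fun X => ?_, fun X Y hXY => ?_, fun X Y => ?_⟩
  · have h1 := h.union_le {e} X
    rw [← insert_eq] at h1
    unfold con
    omega
  · have h1 := h.mono _ _ (insert_subset_insert e hXY)
    unfold con
    omega
  · have h1 := h.submod (insert e X) (insert e Y)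
    have h2 : insert e X ∩ insert e Y = insert e (X ∩ Y) := by
      ext a; simp only [mem_inter, mem_insert]; tauto
    have h3 : insert e X ∪ insert e Y = insert e (X ∪ Y) := by
      ext a; simp only [mem_union, mem_insert]; tauto
    rw [h2, h3] at h1
    have := key X
    have := key Y
    have := key (X ∩ Y)
    have := key (X ∪ Y)
    unfold con
    omega

section Fin

variable [Fintype α]

/-- A rank function is determined by its bases. -/
theorem IsRk.le_of_bases {ρ ρ' : Finset α → ℕ} (h : IsRk ρ) (h' : IsRk ρ')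
    (hb : ∀ B : Finset α, B.card = ρ univ → ρ B = B.card → ρ' B = B.card) (X : Finset α) :
    ρ X ≤ ρ' X := by
  obtain ⟨I, -, hIX, hI, hIc⟩ := h.extend ∅ X (by simp [h.empty]) (empty_subset _)
  obtain ⟨B, hIB, -, hB, hBc⟩ := h.extend I univ hI (subset_univ _)
  have h1 := h'.indep_sub (hb B hBc hB) hIB
  have h2 := h'.mono I X hIX
  omega

/-- The dual rank function. -/
def dual (ρ : Finset α → ℕ) : Finset α → ℕ := fun X => X.card + ρ Xᶜ - ρ univ

theorem IsRk.univ_le {ρ : Finset α → ℕ} (h : IsRk ρ) (X : Finset α) :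
    ρ univ ≤ X.card + ρ Xᶜ := by
  have h1 := h.union_le Xᶜ X
  rw [union_comm, union_compl] at h1
  omega

theorem IsRk.dual_rk {ρ : Finset α → ℕ} (h : IsRk ρ) : IsRk (dual ρ) := by
  refine ⟨fun X => ?_, fun X Y hXY => ?_, fun X Y => ?_⟩
  · have := h.mono Xᶜ univ (subset_univ _)
    unfold dual
    omega
  · have h1 := h.le_add_sdiff Xᶜ Yᶜ
    have h2 : Xᶜ \ Yᶜ = Y \ X := by ext a; simp; tauto
    rw [h2] at h1
    have h3 := card_sdiff_add_card_eq_card hXY
    unfold dual
    omega
  · have h1 := h.submod Xᶜ Yᶜ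
    rw [← compl_union, ← compl_inter] at h1
    have h2 := card_inter_add_card_union X Y
    have := h.univ_le X
    have := h.univ_le Y
    have := h.univ_le (X ∩ Y)
    have := h.univ_le (X ∪ Y)
    unfold dual
    omega

theorem IsRk.dual_univ {ρ : Finset α → ℕ} (h : IsRk ρ) :
    dual ρ univ = Fintype.card α - ρ univ := by
  simp [dual, h.empty]

theorem IsRk.dual_dual {ρ : Finset α → ℕ} (h : IsRk ρ) :
    dual (dual ρ) = ρ := by
  funext X
  have h1 := h.dual_univ
  have h2 := h.univ_le Xᶜ
  have h3 := card_add_card_compl X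
  have h4 := h.le_card univ
  rw [card_univ] at h4
  rw [compl_compl] at h2
  show X.card + dual ρ Xᶜ - dual ρ univ = ρ X
  rw [h1]
  show X.card + (Xᶜ.card + ρ Xᶜᶜ - ρ univ) - (Fintype.card α - ρ univ) = ρ X
  rw [compl_compl]
  omega

end Fin

end Pool.Agent.Lib.MP_7685df_co
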